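import Pool.Agent.H52.VK.Pol
import Pool.Agent.H34.TG.Gr

/-!
# [H54 BS] The base of POLY. Definitions

MP_2a547c_gt, think note 1291, section 5. Closed chains of length `n` are functions `f : ℕ → B × Art M` with period `n`. `PolF M S` is `Pol M S` (H52/VK) for
such functions. `Sep M t s₁ s₂`: the type `t` separates `s₁` from `s₂` in the Coxeter graph. `Forest M`: no edge `b c` of the graph `3 ≤ M` is in a circuit.
-/

set_option autoImplicit false

namespace Pool.Agent.H54.BS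

open Pool.H8.CDW Pool.Agent.H52.PAG Pool.Agent.H75.INF Pool.Agent.H54.TF Pool.Agent.H52.VK Pool.Agent.H34.TG

variable {B : Type} (M : CoxeterMatrix B)

/-- closed chains of length `n` -/
structure Chn (S : Set B) (n : ℕ) (f : ℕ → B × Art M) : Prop where
  per : ∀ i, f (i + n) = f i
  mem : ∀ i, (f i).1 ∈ S
  ne : ∀ i, (f i).1 ≠ (f (i + 1)).1
  adj : ∀ i, Jv M S (f i) (f (i + 1))

/-- degenerate chains -/
def Deg (S : Set B) (f : ℕ → B × Art M) : Prop := ∃ i, Jv M S (f i) (f (i + 2))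

/-- the sum of the weights -/
noncomputable def fsum (n : ℕ) (f : ℕ → B × Art M) : ℝ := ∑ i ∈ Finset.range n, wt M (f i).1 (f (i + 1)).1

/-- POLY(S) for periodic functions -/
def PolF (S : Set B) : Prop := ∀ (n : ℕ) (f : ℕ → B × Art M), 4 ≤ n → Chn M S n f → fsum M n f < 2 → Deg M S f

/-- the type `t` separates `s₁` from `s₂` -/
def Sep (t s₁ s₂ : B) : Prop :=
  ∃ T : Set B, t ∉ T ∧ s₁ ∈ T ∧ s₂ ∉ T ∧ s₂ ≠ t ∧ ∀ i ∈ T, ∀ j, j ∉ T → j ≠ t → M i j = 2

/-- the graph `3 ≤ M` has no circuits -/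
def Forest : Prop := ∀ b c, 3 ≤ M b c →
  ¬ Relation.ReflTransGen (fun x y => 3 ≤ M x y ∧ ¬ (x = b ∧ y = c) ∧ ¬ (x = c ∧ y = b)) b c

/-- all triples are spherical -/
def Tri3 (S : Set B) : Prop := ∀ i ∈ S, ∀ j ∈ S, ∀ k ∈ S, i ≠ j → j ≠ k → i ≠ k →
  1 < (1 : ℝ) / M i j + 1 / M j k + 1 / M i k

/-- (b1): finite type, labels `4` and `5`: no closed paths of length six -/
def B1s : Prop := ∀ (B : Type) [Finite B] (M : CoxeterMatrix B), Finite M.Group → ∀ b c : B, (M b c = 4 ∨ M b c = 5) →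
  Gir (ap M ({b}ᶜ : Set B)) (ap M ({c}ᶜ : Set B)) 4

/-- finite type: forests -/
def Fors : Prop := ∀ (B : Type) [Finite B] (M : CoxeterMatrix B), Finite M.Group → Forest M

/-- the step -/
def PStep : Prop := ∀ (B : Type) [Finite B] (M : CoxeterMatrix B), (∀ i j, M i j ≠ 0) → ∀ p q r : B, p ≠ q → q ≠ r → p ≠ r →
  wt M p q + wt M q r + wt M p r ≤ 1 → Pol M ({p}ᶜ : Set B) → Pol M ({q}ᶜ : Set B) → Pol M ({r}ᶜ : Set B) → Pol M (Set.univ : Set B)

end Pool.Agent.H54.BS
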