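import Pool.Agent.H54.BS.Defs

/-!
# [H54 BS WTS] The weights (20 min)

`wt M s t = 1 / lab (M s t)`, `lab 5 = 4`, otherwise `lab m = m`.
-/

set_option autoImplicit false

namespace Pool.Agent.H54.BS

open Pool.H8.CDW Pool.Agent.H52.PAG Pool.Agent.H75.INF Pool.Agent.H54.TF Pool.Agent.H52.VK Pool.Agent.H34.TG

variable {B : Type} {M : CoxeterMatrix B}

private theorem lab_cases (m : ℕ) (h : 2 ≤ m) :
    ((1 : ℝ) / m = 1 / 2 ∧ (1 : ℝ) / (lab m : ℝ) = 1 / 2) ∨ ((1 : ℝ) / m = 1 / 3 ∧ (1 : ℝ) / (lab m : ℝ) = 1 / 3) ∨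
    ((1 : ℝ) / m = 1 / 4 ∧ (1 : ℝ) / (lab m : ℝ) = 1 / 4) ∨ ((1 : ℝ) / m = 1 / 5 ∧ (1 : ℝ) / (lab m : ℝ) = 1 / 4) ∨
    ((1 : ℝ) / (lab m : ℝ) = (1 : ℝ) / m ∧ 0 < (1 : ℝ) / m ∧ (1 : ℝ) / m ≤ 1 / 6) := by
  rcases (by omega : m = 2 ∨ m = 3 ∨ m = 4 ∨ m = 5 ∨ 6 ≤ m) with rfl | rfl | rfl | rfl | h6
  · left
    simp [lab]
  · right; left
    simp [lab]
  · right; right; left
    simp [lab]
  · right; right; right; left
    simp [lab]
  · right; right; right; right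
    have h5 : lab m = m := by
      unfold lab
      rw [if_neg (by omega)]
    have h7 : (6 : ℝ) ≤ m := by exact_mod_cast h6
    rw [h5]
    refine ⟨rfl, by positivity, ?_⟩
    exact one_div_le_one_div_of_le (by norm_num) h7

theorem wt_symm (s t : B) : wt M s t = wt M t s := by
  unfold wt
  rw [show M s t = M t s from (M.symmetric s t)]

theorem wt_two {s t : B} (h : M s t = 2) : wt M s t = 1 / 2 := by
  unfold wt
  rw [h]
  simp [lab]

theorem wt_three {s t : B} (h : M s t = 3) : wt M s t = 1 / 3 := by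
  unfold wt
  rw [h]
  simp [lab]

theorem wt_four {s t : B} (h : M s t = 4 ∨ M s t = 5) : wt M s t = 1 / 4 := by
  unfold wt
  rcases h with h | h
  · rw [h]
    simp [lab]
  · rw [h]
    simp [lab]

theorem wt_le {s t : B} (h : 3 ≤ M s t) : wt M s t ≤ 1 / 3 := by
  unfold wt
  have h1 : (3 : ℝ) ≤ (lab (M s t) : ℝ) := by
    have : 3 ≤ lab (M s t) := by
      unfold lab
      split_ifs <;> omega
    exact_mod_cast this
  exact one_div_le_one_div_of_le (by norm_num) h1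

theorem wt_ge {s t : B} (h : 2 ≤ M s t) (h5 : M s t ≤ 5) : 1 / 4 ≤ wt M s t := by
  unfold wt
  have h1 : (lab (M s t) : ℝ) ≤ 4 := by
    have : lab (M s t) ≤ 4 := by
      unfold lab
      split_ifs <;> omega
    exact_mod_cast this
  have h2 : (0 : ℝ) < (lab (M s t) : ℝ) := by
    have : 0 < lab (M s t) := by
      unfold lab
      split_ifs <;> omega
    exact_mod_cast this
  exact one_div_le_one_div_of_le h2 h1

theorem wt_pos {s t : B} (h : M s t ≠ 0) : 0 < wt M s t := by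
  unfold wt
  have h2 : (0 : ℝ) < (lab (M s t) : ℝ) := by
    have : 0 < lab (M s t) := by
      unfold lab
      split_ifs <;> omega
    exact_mod_cast this
  positivity

theorem wt_le_half {s t : B} (h : 2 ≤ M s t) : wt M s t ≤ 1 / 2 := by
  unfold wt
  have h1 : (2 : ℝ) ≤ (lab (M s t) : ℝ) := by
    have : 2 ≤ lab (M s t) := by
      unfold lab
      split_ifs <;> omega
    exact_mod_cast this
  exact one_div_le_one_div_of_le (by norm_num) h1

/-- nonspherical triples have sum of weights at most one -/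
theorem wt_sum {p q r : B} (hpq : 2 ≤ M p q) (hqr : 2 ≤ M q r) (hpr : 2 ≤ M p r)
    (h : (1 : ℝ) / M p q + 1 / M q r + 1 / M p r ≤ 1) : wt M p q + wt M q r + wt M p r ≤ 1 := by
  unfold wt
  rcases lab_cases _ hpq with ⟨a1, a2⟩ | ⟨a1, a2⟩ | ⟨a1, a2⟩ | ⟨a1, a2⟩ | ⟨a1, a2, a3⟩ <;>
  rcases lab_cases _ hqr with ⟨b1, b2⟩ | ⟨b1, b2⟩ | ⟨b1, b2⟩ | ⟨b1, b2⟩ | ⟨b1, b2, b3⟩ <;>
  rcases lab_cases _ hpr with ⟨c1, c2⟩ | ⟨c1, c2⟩ | ⟨c1, c2⟩ | ⟨c1, c2⟩ | ⟨c1, c2, c3⟩ <;>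
  linarith

end Pool.Agent.H54.BS
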