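import Pool.Agent.H54.BS.Defs

/-!
# [H54 BS SP] Separation (30 min)

`Sep M t s₁ s₂` with the set `T` (`s₁ ∈ T`), `T' = ({t} ∪ T)ᶜ` (`s₂ ∈ T'`). `univ \ {t} = T ∪ T'`, all labels between `T` and `T'` are `2`, so the generators commute (`gen_rel` with `alt` of length two, or the lemma used in
H54/TF/Trf, `gs_prod`), every element of `ap M (univ \ {t})` is `a * a'` with `a ∈ ap M T`, `a' ∈ ap M T'`, and `a * a' = a' * a`. Let `x` be a common element of the cosets of `(s₁, g₁)` and `(t, g)`, `y` one of `(t, g)` and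
`(s₂, g₂)`: `x⁻¹ * y = a * a'`. `z = x * a'` : `a' ∈ ap M T' ≤ ap M (univ \ {s₁})` (`s₁ ∈ T`), so `z` is in the coset of `(s₁, g₁)`; `z = y * a⁻¹` (commuting), `a ∈ ap M T ≤ ap M (univ \ {s₂})`: in the coset of `(s₂, g₂)`.
-/

set_option autoImplicit false

namespace Pool.Agent.H54.BS

open Pool.H8.CDW Pool.Agent.H52.PAG Pool.Agent.H75.INF Pool.Agent.H54.TF Pool.Agent.H52.VK Pool.Agent.H34.TG

variable {B : Type} {M : CoxeterMatrix B}

private theorem comm_ap' {S₁ S₂ : Set B} (h2 : ∀ i ∈ S₁, ∀ j ∈ S₂, M i j = 2) {x y : Art M}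
    (hx : x ∈ ap M S₁) (hy : y ∈ ap M S₂) : Commute x y := by
  have h0 : ∀ i ∈ S₁, ∀ j ∈ S₂, Commute (gen M i) (gen M j) := by
    intro i hi j hj
    have h3 : M i j ≠ 0 := by
      rw [h2 i hi j hj]
      exact two_ne_zero
    have h4 := gen_rel h3
    rw [h2 i hi j hj] at h4
    change gen M i * (gen M j * 1) = gen M j * (gen M i * 1) at h4
    rw [mul_one, mul_one] at h4
    exact h4
  have h1 : ∀ j ∈ S₂, Commute x (gen M j) := by
    intro j hj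
    refine ap_induction (P := fun x => Commute x (gen M j)) (Commute.one_left _) ?_ ?_ hx
    · intro x _ k hk h
      exact h.mul_left (h0 k hk j hj)
    · intro x _ k hk h
      exact h.mul_left (h0 k hk j hj).inv_left
  refine ap_induction (P := fun y => Commute x y) (Commute.one_right _) ?_ ?_ hy
  · intro y _ k hk h
    exact h.mul_right (h1 k hk)
  · intro y _ k hk h
    exact h.mul_right (h1 k hk).inv_right

private theorem dec_ap' {S₁ S₂ : Set B} (h2 : ∀ i ∈ S₁, ∀ j ∈ S₂, M i j = 2) {x : Art M}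
    (hx : x ∈ ap M (S₁ ∪ S₂)) : ∃ x₁ ∈ ap M S₁, ∃ x₂ ∈ ap M S₂, x = x₁ * x₂ := by
  refine ap_induction (P := fun x => ∃ x₁ ∈ ap M S₁, ∃ x₂ ∈ ap M S₂, x = x₁ * x₂) ?_ ?_ ?_ hx
  · exact ⟨1, one_mem _, 1, one_mem _, (mul_one _).symm⟩
  · rintro x _ k hk ⟨x₁, h1, x₂, h3, rfl⟩
    rcases hk with hk | hk
    · refine ⟨x₁ * gen M k, mul_mem h1 (gen_mem_ap hk), x₂, h3, ?_⟩
      rw [mul_assoc, mul_assoc, (comm_ap' h2 (gen_mem_ap hk) h3).eq]
    · exact ⟨x₁, h1, x₂ * gen M k, mul_mem h3 (gen_mem_ap hk), mul_assoc _ _ _⟩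
  · rintro x _ k hk ⟨x₁, h1, x₂, h3, rfl⟩
    rcases hk with hk | hk
    · refine ⟨x₁ * (gen M k)⁻¹, mul_mem h1 (inv_mem (gen_mem_ap hk)), x₂, h3, ?_⟩
      rw [mul_assoc, mul_assoc, (comm_ap' h2 (inv_mem (gen_mem_ap hk)) h3).eq]
    · exact ⟨x₁, h1, x₂ * (gen M k)⁻¹, mul_mem h3 (inv_mem (gen_mem_ap hk)), mul_assoc _ _ _⟩

theorem sep_j {t s₁ s₂ : B} (h : Sep M t s₁ s₂) {x y z : B × Art M} (hx : x.1 = s₁) (hy : y.1 = t) (hz : z.1 = s₂)
    (h1 : Jv M Set.univ x y) (h2 : Jv M Set.univ y z) : Jv M Set.univ x z := by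
  obtain ⟨T, ht, h1T, h2T, hne, hcom⟩ := h
  obtain ⟨p, hp1, hp2⟩ := h1
  obtain ⟨q, hq1, hq2⟩ := h2
  rw [hx] at hp1
  rw [hy] at hp2 hq1
  rw [hz] at hq2
  have e0 : (Set.univ \ {t} : Set B) = T ∪ {j | j ∉ T ∧ j ≠ t} := by
    ext j
    constructor
    · rintro ⟨_, hj⟩
      by_cases hjT : j ∈ T
      · exact Or.inl hjT
      · exact Or.inr ⟨hjT, hj⟩
    · rintro (hj | hj)
      · exact ⟨trivial, fun e => ht (by rw [← show j = t from e]; exact hj)⟩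
      · exact ⟨trivial, hj.2⟩
  have h3 : p⁻¹ * q ∈ ap M (T ∪ {j | j ∉ T ∧ j ≠ t}) := by
    rw [← e0]
    have e1 : p⁻¹ * q = (y.2⁻¹ * p)⁻¹ * (y.2⁻¹ * q) := by group
    rw [e1]
    exact mul_mem (inv_mem hp2) hq1
  have hc2 : ∀ i ∈ T, ∀ j ∈ ({j | j ∉ T ∧ j ≠ t} : Set B), M i j = 2 := fun i hi j hj => hcom i hi j hj.1 hj.2
  obtain ⟨a, ha, a', ha', e⟩ := dec_ap' hc2 h3
  have hcm := comm_ap' hc2 ha ha'
  refine ⟨p * a', ?_, ?_⟩
  · have hsub : ({j | j ∉ T ∧ j ≠ t} : Set B) ⊆ Set.univ \ {s₁} := by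
      intro j hj
      exact ⟨trivial, fun e1 => hj.1 (by rw [show j = s₁ from e1]; exact h1T)⟩
    rw [hx, ← mul_assoc]
    exact mul_mem hp1 (ap_mono hsub ha')
  · have e2 : z.2⁻¹ * (p * a') = (z.2⁻¹ * q) * a⁻¹ := by
      have e3 : q = p * (a * a') := by rw [← e]; group
      rw [e3, hcm.eq]
      group
    have hsub : T ⊆ Set.univ \ {s₂} := by
      intro j hj
      exact ⟨trivial, fun e1 => h2T (by rw [← show j = s₂ from e1]; exact hj)⟩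
    rw [hz, e2]
    exact mul_mem hq2 (inv_mem (ap_mono hsub ha))

theorem sep_symm {t s₁ s₂ : B} (h : Sep M t s₁ s₂) : Sep M t s₂ s₁ := by
  obtain ⟨T, ht, h1T, h2T, hne, hcom⟩ := h
  refine ⟨{j | j ∉ T ∧ j ≠ t}, fun h => h.2 rfl, ⟨h2T, hne⟩, fun h => h.1 h1T, fun e => ht (by rw [← e]; exact h1T), ?_⟩
  intro i hi j hj hjt
  have hjT : j ∈ T := by
    by_contra hcon
    exact hj ⟨hcon, hjt⟩
  rw [M.symmetric i j]
  exact hcom j hjT i hi.1 hi.2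

theorem jv_symm {x y : B × Art M} {S : Set B} (h : Jv M S x y) : Jv M S y x := by
  obtain ⟨p, hp1, hp2⟩ := h
  exact ⟨p, hp2, hp1⟩

end Pool.Agent.H54.BS
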