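import Pool.Agent.H54.BS.Defs
import Pool.Agent.H54.TF.Main
import Pool.Agent.H8.CDW.D3

/-!
# [H54 BS RED] Finiteness of Coxeter groups from the irreducible parts of rank at least three
-/

set_option autoImplicit false

namespace Pool.Agent.H54.BS

open CoxeterSystem Pool.H8.CDW Pool.Agent.H52.PAG Pool.Agent.H75.INF Pool.Agent.H54.TF Pool.Agent.H52.VK Pool.Agent.H34.TG

variable {B : Type} {M : CoxeterMatrix B}

private theorem fin_iff (hM : ∀ i j, M i j ≠ 0) (T : Set B) :
    Finite (resM M T).Group ↔ Finite (par M.toCoxeterSystem T) := by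
  have h := card_res M.toCoxeterSystem hM T
  constructor
  · intro h1
    apply Nat.finite_of_card_ne_zero
    rw [← h]
    exact Nat.card_ne_zero.2 ⟨⟨1⟩, h1⟩
  · intro h1
    apply Nat.finite_of_card_ne_zero
    rw [h]
    exact Nat.card_ne_zero.2 ⟨⟨1⟩, h1⟩

private theorem fin_union {J J' : Set B} (h2 : ∀ i ∈ J, ∀ j ∈ J', M i j = 2) (h : Finite (par M.toCoxeterSystem J))
    (h' : Finite (par M.toCoxeterSystem J')) : Finite (par M.toCoxeterSystem (J ∪ J')) := by
  have hc : ∀ x ∈ par M.toCoxeterSystem J, ∀ y ∈ par M.toCoxeterSystem J', Commute x y := by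
    intro x hx y hy
    refine Subgroup.closure_induction (p := fun x _ => Commute x y) ?_ ?_ ?_ ?_ hx
    · rintro _ ⟨i, hi, rfl⟩
      refine Subgroup.closure_induction (p := fun y _ => Commute (M.toCoxeterSystem.simple i) y) ?_ ?_ ?_ ?_ hy
      · rintro _ ⟨j, hj, rfl⟩
        have h3 := M.toCoxeterSystem.simple_mul_simple_pow i j
        rw [h2 i hi j hj, pow_two] at h3
        show _ = _
        have h4 := eq_inv_of_mul_eq_one_left h3
        rw [mul_inv_rev, inv_simple, inv_simple] at h4
        exact h4
      · exact Commute.one_right _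
      · exact fun a b _ _ ha hb => ha.mul_right hb
      · exact fun a _ ha => ha.inv_right
    · exact Commute.one_left _
    · exact fun a b _ _ ha hb => ha.mul_left hb
    · exact fun a _ ha => ha.inv_left
  have e : par M.toCoxeterSystem (J ∪ J') = (MonoidHom.noncommCoprod (par M.toCoxeterSystem J).subtype
      (par M.toCoxeterSystem J').subtype fun x y => hc x x.2 y y.2).range := by
    rw [MonoidHom.noncommCoprod_range, Subgroup.range_subtype, Subgroup.range_subtype]
    unfold Pool.H8.CDW.par
    rw [Set.image_union, Subgroup.closure_union]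
  rw [e]
  exact Finite.of_surjective _ (MonoidHom.rangeRestrict_surjective _)

private theorem fin_pair {b c : B} (hM : M b c ≠ 0) : Finite (par M.toCoxeterSystem ({b, c} : Set B)) := by
  let cs := M.toCoxeterSystem
  let r := cs.simple b * cs.simple c
  have hr : r ^ M b c = 1 := cs.simple_mul_simple_pow b c
  have hf : (Subgroup.zpowers r : Set M.Group).Finite := by
    have h1 : IsOfFinOrder r := isOfFinOrder_iff_pow_eq_one.2 ⟨M b c, Nat.pos_of_ne_zero hM, hr⟩
    exact (finite_zpowers.2 h1)
  have key : ∀ x ∈ par cs ({b, c} : Set B), x ∈ Subgroup.zpowers r ∨ x * cs.simple b ∈ Subgroup.zpowers r := by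
    have hb : ∀ x ∈ Subgroup.zpowers r, cs.simple b * x * cs.simple b ∈ Subgroup.zpowers r := by
      intro x hx
      obtain ⟨k, rfl⟩ := Subgroup.mem_zpowers_iff.1 hx
      have h1 : cs.simple b * r ^ k * cs.simple b = (cs.simple b * r * (cs.simple b)⁻¹) ^ k := by
        rw [conj_zpow, inv_simple]
      have h2 : cs.simple b * r * (cs.simple b)⁻¹ = r⁻¹ := by
        show cs.simple b * (cs.simple b * cs.simple c) * (cs.simple b)⁻¹ = (cs.simple b * cs.simple c)⁻¹
        rw [mul_inv_rev, inv_simple, inv_simple, simple_mul_simple_cancel_left]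
      rw [h1, h2]
      exact Subgroup.zpow_mem _ (inv_mem (Subgroup.mem_zpowers r)) k
    intro x hx
    refine Subgroup.closure_induction (p := fun x _ => x ∈ Subgroup.zpowers r ∨ x * cs.simple b ∈ Subgroup.zpowers r)
      ?_ ?_ ?_ ?_ hx
    · rintro _ ⟨i, hi, rfl⟩
      right
      rcases hi with rfl | hi
      · rw [simple_mul_simple_self]
        exact one_mem _
      · rw [Set.mem_singleton_iff] at hi
        subst hi
        have h1 : cs.simple i * cs.simple b = r⁻¹ := by
          show _ = (cs.simple b * cs.simple i)⁻¹
          rw [mul_inv_rev, inv_simple, inv_simple]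
        rw [h1]
        exact inv_mem (Subgroup.mem_zpowers r)
    · exact Or.inl (one_mem _)
    · rintro x y _ _ (h1 | h1) (h2 | h2)
      · exact Or.inl (mul_mem h1 h2)
      · right
        rw [mul_assoc]
        exact mul_mem h1 h2
      · right
        have e : x * y * cs.simple b = (x * cs.simple b) * (cs.simple b * y * cs.simple b) := by
          have h3 := cs.simple_mul_simple_self b
          calc x * y * cs.simple b = x * 1 * y * cs.simple b := by rw [mul_one]
            _ = x * (cs.simple b * cs.simple b) * y * cs.simple b := by rw [h3]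
            _ = _ := by group
        rw [e]
        exact mul_mem h1 (hb y h2)
      · left
        have e : x * y = (x * cs.simple b) * (cs.simple b * (y * cs.simple b) * cs.simple b) := by
          have h3 := cs.simple_mul_simple_self b
          calc x * y = x * 1 * y * 1 := by rw [mul_one, mul_one]
            _ = x * (cs.simple b * cs.simple b) * y * (cs.simple b * cs.simple b) := by rw [h3]
            _ = _ := by group
        rw [e]
        exact mul_mem h1 (hb _ h2)
    · rintro x _ (h1 | h1)
      · exact Or.inl (inv_mem h1)
      · right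
        have h3 := cs.simple_mul_simple_self b
        have e : x⁻¹ * cs.simple b = cs.simple b * (x * cs.simple b)⁻¹ * cs.simple b := by
          rw [mul_inv_rev, inv_simple, simple_mul_simple_cancel_left]
        rw [e]
        exact hb _ (inv_mem h1)
  have h4 : ((par cs ({b, c} : Set B) : Subgroup M.Group) : Set M.Group) ⊆
      (Subgroup.zpowers r : Set M.Group) ∪ (fun x => x * cs.simple b) ⁻¹' (Subgroup.zpowers r : Set M.Group) := fun x hx => key x hx
  have h5 : ((fun x => x * cs.simple b) ⁻¹' (Subgroup.zpowers r : Set M.Group)).Finite :=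
    hf.preimage (mul_left_injective _).injOn
  exact ((hf.union h5).subset h4).to_subtype

private theorem par_mono {K L : Set B} (h : K ⊆ L) (hf : Finite (par M.toCoxeterSystem L)) : Finite (par M.toCoxeterSystem K) := by
  have h1 : par M.toCoxeterSystem K ≤ par M.toCoxeterSystem L := Subgroup.closure_mono (Set.image_mono h)
  exact Finite.of_injective _ (Subgroup.inclusion_injective h1)

/-- finiteness from the irreducible parts with at least three elements -/
theorem fin_all [Finite B] (hM : ∀ i j, M i j ≠ 0) (S : Set B)
    (h : ∀ L ⊆ S, Irr M L → 3 ≤ L.ncard → Tri3 M L → Finite (resM M L).Group) (n : ℕ) :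
    ∀ T : Set B, T.ncard = n → T ⊆ S → Tri3 M T → Finite (resM M T).Group := by
  induction n using Nat.strong_induction_on with
  | _ n ih =>
    intro T hn hT h3
    by_cases hI : Irr M T
    · by_cases hc : 3 ≤ T.ncard
      · exact h T hT hI hc h3
      · rw [fin_iff hM]
        rcases T.eq_empty_or_nonempty with rfl | ⟨b, hb⟩
        · have e : par M.toCoxeterSystem (∅ : Set B) = ⊥ := by
            unfold Pool.H8.CDW.par
            rw [Set.image_empty, Subgroup.closure_empty]
          rw [e]
          infer_instance
        · rcases (T \ {b}).eq_empty_or_nonempty with h4 | ⟨c, hc'⟩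
          · refine par_mono (L := {b, b}) ?_ (fin_pair (hM b b))
            intro x hx
            by_contra h5
            have h6 : x ∈ T \ {b} := ⟨hx, fun h7 => h5 (Or.inl h7)⟩
            rw [h4] at h6
            exact h6
          · refine par_mono (L := {b, c}) ?_ (fin_pair (hM b c))
            intro x hx
            by_contra h5
            have hxb : x ≠ b := fun h7 => h5 (Or.inl h7)
            have hxc : x ≠ c := fun h7 => h5 (Or.inr h7)
            apply hc
            have h8 : ({b, c, x} : Set B) ⊆ T := by
              rintro y (rfl | rfl | rfl)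
              · exact hb
              · exact hc'.1
              · exact hx
            have h9 : ({b, c, x} : Set B).ncard = 3 := by
              rw [Set.ncard_eq_three]
              exact ⟨b, c, x, fun e => hc'.2 e.symm, fun e => hxb e.symm, fun e => hxc e.symm, rfl⟩
            rw [← h9]
            exact Set.ncard_le_ncard h8 (Set.toFinite T)
    · unfold Irr at hI
      push Not at hI
      obtain ⟨L, hL, hne, hLT, h2⟩ := hI
      have e : T = L ∪ (T \ L) := (Set.union_sdiff_cancel hL).symm
      have h4 : Tri3 M L := fun i hi j hj k hk => h3 i (hL hi) j (hL hj) k (hL hk)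
      have h5 : Tri3 M (T \ L) := fun i hi j hj k hk => h3 i hi.1 j hj.1 k hk.1
      have h6 : L.ncard < n := by
        rw [← hn]
        exact Set.ncard_lt_ncard (Set.ssubset_iff_subset_ne.2 ⟨hL, hLT⟩) (Set.toFinite T)
      have h7 : (T \ L).ncard < n := by
        rw [← hn]
        refine Set.ncard_lt_ncard (Set.ssubset_iff_subset_ne.2 ⟨Set.sdiff_subset, ?_⟩) (Set.toFinite T)
        intro h8
        obtain ⟨x, hx⟩ := hne
        have h9 := hL hx
        rw [← h8] at h9
        exact h9.2 hx
      have h8 := (fin_iff hM L).1 (ih _ h6 L rfl (hL.trans hT) h4)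
      have h9 := (fin_iff hM (T \ L)).1 (ih _ h7 (T \ L) rfl (Set.sdiff_subset.trans hT) h5)
      rw [fin_iff hM, e]
      exact fin_union (fun i hi j hj => h2 i hi j hj.1 hj.2) h8 h9

end Pool.Agent.H54.BS
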