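import Pool.Agent.H54.BS.All
import Pool.Agent.H2.UF.Six
import Pool.Agent.H2.SPH.Sph
import Pool.Agent.H54.BS.Red

/-!
# [H54 BS FIN] POLY for all subsets from the step alone
-/

set_option autoImplicit false

namespace Pool.Agent.H54.BS

open Pool.H8.CDW Pool.Agent.H52.PAG Pool.Agent.H75.INF Pool.Agent.H54.TF Pool.Agent.H52.VK Pool.Agent.H34.TG

variable {B : Type} {M : CoxeterMatrix B}

theorem b1s : B1s := by
  intro B _ M hf b c h
  have hbc : b ≠ c := by
    rintro rfl
    rw [M.diagonal] at h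
    omega
  exact Pool.Agent.H2.UF.no_six M hbc (by omega)

theorem fors : Fors := by
  intro B _ M hf b c hbc h
  obtain ⟨U, hb, hc, hU⟩ := Pool.Agent.H2.UF.bridge M hbc
  have key : ∀ x, Relation.ReflTransGen (fun x y => 3 ≤ M x y ∧ ¬ (x = b ∧ y = c) ∧ ¬ (x = c ∧ y = b)) b x → x ∈ U := by
    intro x hx
    induction hx with
    | refl => exact hb
    | tail _ h1 ih =>
      by_contra h2
      have h3 := hU _ ih _ h2 h1.2.1
      have h4 := h1.1
      omega
  exact hc (key c h)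

theorem sphG : SphG := by
  intro B _ M hf b c _ hm x hx x' hx' y hy y' hy' h
  exact Pool.Agent.H2.SPH.no_four M.toCoxeterSystem hm hx hx' hy hy' h

/-- POLY for all subsets -/
theorem polF_all (hP : PStep) [Finite B] (hM : ∀ i j, M i j ≠ 0) (S : Set B)
    (h : ∀ T ⊆ S, Tri3 M T → Finite (resM M T).Group) : PolF M S :=
  pol_all hP sphG b1s fors hM _ S rfl h

/-- girth, from the irreducible parts with at least three elements -/
theorem gir_irr (hP : PStep) [Finite B] (hM : ∀ i j, M i j ≠ 0) (S : Set B)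
    (h : ∀ L ⊆ S, Irr M L → 3 ≤ L.ncard → Tri3 M L → Finite (resM M L).Group) {b c : B} (hb : b ∈ S) (hc : c ∈ S) (hbc : b ≠ c) :
    Gir (ap M (S \ {b})) (ap M (S \ {c})) (lab (M b c)) :=
  gir_of_polF (polF_all hP hM S fun T hT h3 => fin_all hM S h _ T rfl hT h3) hb hc hbc

/-- girth -/
theorem gir_all (hP : PStep) [Finite B] (hM : ∀ i j, M i j ≠ 0) (S : Set B)
    (h : ∀ T ⊆ S, Tri3 M T → Finite (resM M T).Group) {b c : B} (hb : b ∈ S) (hc : c ∈ S) (hbc : b ≠ c) :
    Gir (ap M (S \ {b})) (ap M (S \ {c})) (lab (M b c)) :=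
  gir_of_polF (polF_all hP hM S h) hb hc hbc

end Pool.Agent.H54.BS
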