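import Pool.Agent.H54.BS.Defs

/-!
# [H54 BS CV] Closed chains: lists and periodic functions (45 min)

`Pol M S` (H52/VK/Pol) speaks of lists up to rotation, `PolF M S` of functions `f : ℕ → B × Art M` with period `n`. General lemmas (arbitrary `V`, `R`, `w`):
(1) for a function `f` with period `n ≥ 1` and `l = (List.range n).map f`: `Cyc R l ↔ ∀ i < n, R (f i) (f (i + 1))` and `csum w l = ∑ i ∈ range n, w (f i) (f (i + 1))`
(prove first for `a :: l` and `ps`, `IsChain` with a last element, by induction on the list, e.g. with `List.range'`/`List.ofFn`);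
(2) every nonempty list `l` is `(List.range l.length).map f` for the periodic `f i = l[i % l.length]`;
(3) rotation: `((List.range n).map f) ~r ((List.range n).map fun j => f (i + j))` (induction on `i`: `List.range_succ_eq_map`, `List.range_succ`, `List.IsRotated` of
`a :: l` and `l ++ [a]`, period), and conversely `l ~r l'` gives `l'` in this form (`List.IsRotated`: `l.rotate i = l'`).
`pol_iff` (→): `l = (range n).map f`, length `n ≥ 4`; the degenerate place `l ~r a :: b :: c :: m` is `a = f i`, `c = f (i + 2)` for some `i`. (←): `l` with length `≥ 4`, `f` from (2);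
`Deg` gives `i`; `l ~r (range n).map (fun j => f (i + j)) = f i :: f (i + 1) :: f (i + 2) :: _`.
-/

set_option autoImplicit false

namespace Pool.Agent.H54.BS

open Pool.H8.CDW Pool.Agent.H52.PAG Pool.Agent.H75.INF Pool.Agent.H54.TF Pool.Agent.H52.VK Pool.Agent.H34.TG

variable {B : Type} {M : CoxeterMatrix B}

private theorem cyc_iff {V : Type*} {R : V → V → Prop} {n : ℕ} (hn : 1 ≤ n) {f : ℕ → V} (h : f n = f 0) :
    Cyc R ((List.range n).map f) ↔ ∀ i < n, R (f i) (f (i + 1)) := by
  obtain ⟨k, rfl⟩ : ∃ k, n = k + 1 := ⟨n - 1, by omega⟩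
  have h1 : (List.range (k + 1)).map f = f 0 :: (List.range k).map (fun j => f (j + 1)) := by
    rw [List.range_succ_eq_map, List.map_cons, List.map_map]
    rfl
  have h2 : (List.range (k + 1 + 1)).map f = f 0 :: ((List.range k).map (fun j => f (j + 1)) ++ [f 0]) := by
    rw [List.range_succ, List.map_append, h1, List.map_singleton, h, List.cons_append]
  have h3 : Cyc R ((List.range (k + 1)).map f) ↔ List.IsChain R ((List.range (k + 1 + 1)).map f) := by
    rw [h1, h2]
    exact Iff.rfl
  rw [h3, List.isChain_map, List.isChain_range_succ]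

private theorem ps_eq {V : Type*} (w : V → V → ℝ) (k : ℕ) : ∀ f : ℕ → V,
    ps w (f 0) ((List.range k).map (fun j => f (j + 1))) = ∑ i ∈ Finset.range k, w (f i) (f (i + 1)) := by
  induction k with
  | zero => intro f; rfl
  | succ k ih =>
    intro f
    have h1 : (List.range (k + 1)).map (fun j => f (j + 1)) = f 1 :: (List.range k).map (fun j => f (j + 1 + 1)) := by
      rw [List.range_succ_eq_map, List.map_cons, List.map_map]
      rfl
    rw [h1, Finset.sum_range_succ']
    have h2 := ih (fun j => f (j + 1))
    show w (f 0) (f 1) + ps w (f 1) ((List.range k).map (fun j => f (j + 1 + 1))) = _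
    rw [add_comm]
    congr 1

private theorem csum_eq {V : Type*} (w : V → V → ℝ) {n : ℕ} (hn : 1 ≤ n) {f : ℕ → V} (h : f n = f 0) :
    csum w ((List.range n).map f) = ∑ i ∈ Finset.range n, w (f i) (f (i + 1)) := by
  obtain ⟨k, rfl⟩ : ∃ k, n = k + 1 := ⟨n - 1, by omega⟩
  have h1 : (List.range (k + 1)).map f = f 0 :: (List.range k).map (fun j => f (j + 1)) := by
    rw [List.range_succ_eq_map, List.map_cons, List.map_map]
    rfl
  have h2 : (List.range (k + 1)).map (fun j => f (j + 1)) = (List.range k).map (fun j => f (j + 1)) ++ [f 0] := by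
    rw [List.range_succ, List.map_append, List.map_singleton, h]
  rw [← ps_eq w (k + 1) f, h2, h1]
  rfl

private theorem rot_eq {V : Type*} {n : ℕ} {f : ℕ → V} (h : ∀ i, f (i + n) = f i) (i : ℕ) :
    ((List.range n).map f).rotate i = (List.range n).map (fun j => f (i + j)) := by
  have hp : Function.Periodic f n := h
  refine List.ext_getElem (by simp) ?_
  intro k h1 h2
  rw [List.getElem_rotate, List.getElem_map, List.getElem_map, List.getElem_range, List.getElem_range, List.length_map,
    List.length_range, hp.map_mod_nat, add_comm]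

private theorem three {V : Type*} {n : ℕ} (hn : 4 ≤ n) (g : ℕ → V) : ∃ m, (List.range n).map g = g 0 :: g 1 :: g 2 :: m := by
  obtain ⟨k, rfl⟩ : ∃ k, n = k + 3 := ⟨n - 3, by omega⟩
  refine ⟨(List.range k).map fun j => g (j + 1 + 1 + 1), ?_⟩
  rw [List.range_succ_eq_map, List.range_succ_eq_map, List.range_succ_eq_map]
  simp only [List.map_cons, List.map_map]
  rfl

theorem pol_iff {S : Set B} : Pol M S ↔ PolF M S := by
  constructor
  · intro hP n f hn hf hs
    have h0 : f n = f 0 := by
      have := hf.per 0
      rwa [zero_add] at this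
    have h1 := hP ((List.range n).map f) (by
        intro x hx
        obtain ⟨i, _, rfl⟩ := List.mem_map.1 hx
        exact hf.mem i)
      ((cyc_iff (by omega) h0).2 fun i _ => ⟨hf.ne i, hf.adj i⟩)
      (by
        rw [csum_eq _ (by omega) h0]
        exact hs)
    rcases h1 with h1 | ⟨a, b, c, m, hr, hJ⟩
    · rw [List.length_map, List.length_range] at h1
      omega
    · obtain ⟨i, hi⟩ := hr
      rw [rot_eq hf.per] at hi
      obtain ⟨m', hm'⟩ := three hn (fun j => f (i + j))
      rw [hm'] at hi
      have e1 : f (i + 0) = a := (List.cons.inj hi).1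
      have e2 : f (i + 2) = c := (List.cons.inj (List.cons.inj (List.cons.inj hi).2).2).1
      refine ⟨i, ?_⟩
      rw [e2]
      rw [add_zero] at e1
      rw [e1]
      exact hJ
  · intro hP l hQ hC hs
    by_cases hl : l.length ≤ 3
    · exact Or.inl hl
    right
    push Not at hl
    obtain ⟨n, hn⟩ : ∃ n, n = l.length := ⟨_, rfl⟩
    have hpos : ∀ i : ℕ, i % l.length < l.length := fun i => Nat.mod_lt _ (by omega)
    obtain ⟨f, hf⟩ : ∃ f : ℕ → B × Art M, f = fun i => l[i % l.length]'(hpos i) := ⟨_, rfl⟩
    have hlf : l = (List.range n).map f := by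
      refine List.ext_getElem (by simp [hn]) ?_
      intro k h1 h2
      rw [List.getElem_map, List.getElem_range, hf]
      simp only [Nat.mod_eq_of_lt h1]
    have hper : ∀ i, f (i + n) = f i := by
      intro i
      rw [hf, hn]
      simp only [Nat.add_mod_right]
    have hp : Function.Periodic f n := hper
    have h0 : f n = f 0 := by
      have := hper 0
      rwa [zero_add] at this
    have hc := hC
    rw [hlf, cyc_iff (by omega) h0] at hc
    have hR : ∀ i, (f i).1 ≠ (f (i + 1)).1 ∧ Jv M S (f i) (f (i + 1)) := by
      intro i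
      have h1 := hc (i % n) (Nat.mod_lt _ (by omega))
      have e1 : f (i % n) = f i := hp.map_mod_nat i
      have e2 : f (i % n + 1) = f (i + 1) := by
        rw [← hp.map_mod_nat (i % n + 1), Nat.mod_add_mod, hp.map_mod_nat]
      rw [e1, e2] at h1
      exact h1
    have hch : Chn M S n f := by
      refine ⟨hper, fun i => ?_, fun i => (hR i).1, fun i => (hR i).2⟩
      apply hQ
      rw [hf]
      exact List.getElem_mem _
    have hsum : fsum M n f < 2 := by
      rw [hlf, csum_eq _ (by omega) h0] at hs
      exact hs
    obtain ⟨i, hi⟩ := hP n f (by omega) hch hsum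
    obtain ⟨m, hm⟩ := three (n := n) (by omega) (fun j => f (i + j))
    refine ⟨f (i + 0), f (i + 1), f (i + 2), m, ⟨i, ?_⟩, hi⟩
    rw [← hm, ← rot_eq hper, ← hlf]

end Pool.Agent.H54.BS
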