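import Pool.Agent.H54.BS.Defs

/-!
# [H54 BS GOP] Girth from POLY (45 min)

`Gir`, `alp`: H34/TG/Defs. `X = S \ {b}`, `Y = S \ {c}`, `m = lab (M b c)`. Given `x, y, k` with `0 < k < m` and `alp x y k = 1`. `k = 1`: `x 0 * y 0 = 1`, so `x 0 ∈ ap Y`, contradiction.
Let `k ≥ 2`, `n = 2 * k ≥ 4`. Chambers `e j`: `e (2 r) = alp x y r`, `e (2 r + 1) = alp x y r * x r` for `r < k`. Chain of period `n`: `f j = (b, e (j % n))` for `j` even, `(c, e (j % n))` for `j` odd
(`n` is even). The coset of `f j` contains `e j` and `e (j + 1)` (`e n = 1 = e 0`). So `Chn M S n f` (`b ≠ c`, both in `S`), `fsum = n * wt M b c = 2 k / m < 2` (`wt` symmetric: `M.symmetric`). `Deg` at `i`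
(may be reduced to `i < n`): `f i` and `f (i + 2)` have the same type and meet, so they are equal: `e (i+1)` and `e (i+2)` are in the same coset of the OTHER type at `f (i+1)`, and now also both in the coset of `f i`
(= `f (i + 2)`): the quotient `e (i+1)⁻¹ * e (i+2)`, which is some `x r` or `y r`, is in both groups: contradiction.
-/

set_option autoImplicit false

namespace Pool.Agent.H54.BS

open Pool.H8.CDW Pool.Agent.H52.PAG Pool.Agent.H75.INF Pool.Agent.H54.TF Pool.Agent.H52.VK Pool.Agent.H34.TG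

variable {B : Type} {M : CoxeterMatrix B}

/-- the chambers -/
private def ch {G : Type} [Group G] (x y : ℕ → G) (j : ℕ) : G :=
  alp x y (j / 2) * (if j % 2 = 0 then 1 else x (j / 2))

/-- the factors -/
private def fc {G : Type} (x y : ℕ → G) (j : ℕ) : G := if j % 2 = 0 then x (j / 2) else y (j / 2)

private theorem ch_succ {G : Type} [Group G] (x y : ℕ → G) (j : ℕ) :
    ch x y (j + 1) = ch x y j * fc x y j := by
  unfold ch fc
  rcases Nat.mod_two_eq_zero_or_one j with hj | hj
  · have h1 : (j + 1) / 2 = j / 2 := by omega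
    have h2 : (j + 1) % 2 ≠ 0 := by omega
    rw [h1, if_neg h2, if_pos hj, if_pos hj, mul_one]
  · have h1 : (j + 1) / 2 = j / 2 + 1 := by omega
    have h2 : (j + 1) % 2 = 0 := by omega
    rw [h1, if_pos h2, if_neg (by omega), if_neg (by omega), mul_one, mul_assoc]
    rfl

private theorem ch_mod {G : Type} [Group G] {x y : ℕ → G} {k : ℕ} (hk : 0 < k) (h : alp x y k = 1) (j : ℕ) :
    ch x y ((j + 1) % (2 * k)) = ch x y (j % (2 * k)) * fc x y (j % (2 * k)) := by
  rw [← ch_succ]
  have h0 : j % (2 * k) < 2 * k := Nat.mod_lt _ (by omega)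
  rcases Nat.lt_or_ge (j % (2 * k) + 1) (2 * k) with h1 | h1
  · have h2 : (j + 1) % (2 * k) = j % (2 * k) + 1 := by
      rw [Nat.add_mod, Nat.mod_eq_of_lt (show 1 < 2 * k by omega), Nat.mod_eq_of_lt h1]
    rw [h2]
  · have h2 : j % (2 * k) + 1 = 2 * k := by omega
    have h3 : (j + 1) % (2 * k) = 0 := by
      rw [Nat.add_mod, Nat.mod_eq_of_lt (show 1 < 2 * k by omega), h2, Nat.mod_self]
    rw [h3, h2]
    unfold ch
    have h4 : 2 * k / 2 = k := by omega
    have h5 : 2 * k % 2 = 0 := by omega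
    rw [h4, h5, if_pos rfl, h]
    simp [alp]

private theorem mod_par (k j : ℕ) : j % (2 * k) % 2 = j % 2 :=
  Nat.mod_mod_of_dvd j (Dvd.intro k rfl)

theorem gir_of_polF {S : Set B} (h : PolF M S) {b c : B} (hb : b ∈ S) (hc : c ∈ S) (hbc : b ≠ c) :
    Gir (ap M (S \ {b})) (ap M (S \ {c})) (lab (M b c)) := by
  intro x y k h0 h1 hx hy he
  rcases Nat.lt_or_ge k 2 with h2 | h2
  · exact gir_two _ _ x y k h0 h2 hx hy he
  obtain ⟨t, ht⟩ : ∃ t : ℕ → B, ∀ j, t j = if j % 2 = 0 then b else c := ⟨_, fun _ => rfl⟩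
  obtain ⟨z, hz⟩ : ∃ z : ℕ → Art M, ∀ j, z j = fc x y (j % (2 * k)) := ⟨_, fun _ => rfl⟩
  obtain ⟨e, hE⟩ : ∃ e : ℕ → Art M, ∀ j, e j = ch x y (j % (2 * k)) := ⟨_, fun _ => rfl⟩
  have het : ∀ j, e (j + 1) = e j * z j := by
    intro j
    rw [hE, hE, hz]
    exact ch_mod h0 he j
  have hz1 : ∀ j, z j ∈ ap M (S \ {t j}) ∧ z j ∉ ap M (S \ {t (j + 1)}) := by
    intro j
    have h3 : j % (2 * k) / 2 < k := by
      have := Nat.mod_lt j (show 0 < 2 * k by omega)
      omega
    rw [hz, ht, ht]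
    unfold fc
    rw [mod_par]
    rcases Nat.mod_two_eq_zero_or_one j with hj | hj
    · rw [if_pos hj, if_pos hj, if_neg (by omega)]
      exact hx _ h3
    · rw [if_neg (by omega), if_neg (by omega), if_pos (by omega)]
      exact hy _ h3
  have ht2 : ∀ j, t (j + 2) = t j := by
    intro j
    rw [ht, ht, Nat.add_mod_right]
  have hch : Chn M S (2 * k) fun j => (t j, e j) := by
    refine ⟨fun i => ?_, fun i => ?_, fun i => ?_, fun i => ?_⟩
    · have h3 : t (i + 2 * k) = t i := by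
        rw [ht, ht, Nat.add_mul_mod_self_left]
      have h4 : e (i + 2 * k) = e i := by
        rw [hE, hE, Nat.add_mod_right]
      simp only [h3, h4]
    · change t i ∈ S
      rw [ht]
      split_ifs
      · exact hb
      · exact hc
    · change t i ≠ t (i + 1)
      rw [ht, ht]
      rcases Nat.mod_two_eq_zero_or_one i with hj | hj
      · rw [if_pos hj, if_neg (by omega)]
        exact hbc
      · rw [if_neg (by omega), if_pos (by omega)]
        exact hbc.symm
    · change Mt M (S \ {t i}) (S \ {t (i + 1)}) (e i) (e (i + 1))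
      refine ⟨e (i + 1), ?_, ?_⟩
      · rw [het, inv_mul_cancel_left]
        exact (hz1 i).1
      · rw [inv_mul_cancel]
        exact one_mem _
  have hsum : fsum M (2 * k) (fun j => (t j, e j)) < 2 := by
    have h3 : ∀ i ∈ Finset.range (2 * k), wt M (t i) (t (i + 1)) = 1 / (lab (M b c) : ℝ) := by
      intro i _
      unfold wt
      rw [ht, ht]
      rcases Nat.mod_two_eq_zero_or_one i with hj | hj
      · rw [if_pos hj, if_neg (by omega)]
      · rw [if_neg (by omega), if_pos (by omega), M.symmetric c b]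
    change ∑ i ∈ Finset.range (2 * k), wt M (t i) (t (i + 1)) < 2
    rw [Finset.sum_congr rfl h3, Finset.sum_const, Finset.card_range, nsmul_eq_mul]
    have h4 : (k : ℝ) < (lab (M b c) : ℝ) := by exact_mod_cast h1
    have h5 : (0 : ℝ) < (lab (M b c) : ℝ) := lt_of_le_of_lt (Nat.cast_nonneg k) h4
    rw [mul_one_div, div_lt_iff₀ h5]
    push_cast
    linarith
  obtain ⟨i, x', h3, h4⟩ := h (2 * k) _ (by omega) hch hsum
  change (e i)⁻¹ * x' ∈ ap M (S \ {t i}) at h3
  change (e (i + 2))⁻¹ * x' ∈ ap M (S \ {t (i + 2)}) at h4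
  have h5 := (hz1 (i + 1)).2
  have h6 : t (i + 1 + 1) = t i := ht2 i
  rw [h6] at h5
  rw [ht2] at h4
  have h7 : e (i + 2) = e i * z i * z (i + 1) := by
    have h8 := het (i + 1)
    rw [het i] at h8
    exact h8
  rw [h7] at h4
  refine h5 ?_
  have h9 := mul_mem (mul_mem (inv_mem (hz1 i).1) h3) (inv_mem h4)
  have h10 : (z i)⁻¹ * ((e i)⁻¹ * x') * ((e i * z i * z (i + 1))⁻¹ * x')⁻¹ = z (i + 1) := by group
  rwa [h10] at h9

end Pool.Agent.H54.BS
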