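import Pool.Agent.H54.BS.Defs

/-!
# [H54 BS RES] Restriction to a subset (45 min; compare H54/TF/Trf, theorem `gs_res`)

`exists_inc M S` (H75/INF or H34; see H54/TF/Trf and H65/LR/GirInd for the use): an injective `ι : Art (resM M S) →* Art M` with `ι (gen i) = gen i.1`; `(ap (resM M S) L).map ι = ap M (Subtype.val '' L)`.
`Subtype.val '' (T \ {s}) = (Subtype.val '' T) \ {s.1}` (injective). Key: for `s t : S`, `g h : Art (resM M S)`, `g₀ : Art M`:
`Jv M (Subtype.val '' T) (s.1, g₀ * ι g) (t.1, g₀ * ι h) ↔ Jv (resM M S) T (s, g) (t, h)` (the common element `x` is `g₀ * ι x'`), and `wt M s.1 t.1 = wt (resM M S) s t` (`rfl`).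
(→) Let `f` be a chain for `M`, `g₀ = (f 0).2`. All `(f i).2` are in `g₀ * ap M (Subtype.val '' T)` (induction, `Mt` and `ap_mono`), which is in `g₀ * range ι`. Choose (for the VALUES, so that it stays
periodic) `F : B × Art M → S × Art (resM M S)` with `(F x).1.1 = x.1` and `g₀ * ι (F x).2 = x.2` for all `x = f i`; `f' = F ∘ f`. (←) `f = fun i => ((f' i).1.1, ι (f' i).2)`.
-/

set_option autoImplicit false

namespace Pool.Agent.H54.BS

open Pool.H8.CDW Pool.Agent.H52.PAG Pool.Agent.H75.INF Pool.Agent.H54.TF Pool.Agent.H52.VK Pool.Agent.H34.TG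

variable {B : Type} {M : CoxeterMatrix B}

private theorem map_ap {K : Set B} {L : Set K} (ι : Art (resM M K) →* Art M)
    (hg : ∀ k : K, ι (gen (resM M K) k) = gen M k.1) :
    (ap (resM M K) L).map ι = ap M (Subtype.val '' L) := by
  unfold ap
  rw [MonoidHom.map_closure]
  congr 1
  ext x
  constructor
  · rintro ⟨_, ⟨k, hk, rfl⟩, rfl⟩
    exact ⟨k.1, ⟨k, hk, rfl⟩, (hg k).symm⟩
  · rintro ⟨_, ⟨k, hk, rfl⟩, rfl⟩
    exact ⟨_, ⟨k, hk, rfl⟩, hg k⟩

private theorem key {S : Set B} {T : Set S} (ι : Art (resM M S) →* Art M) (hi : Function.Injective ι)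
    (hg : ∀ k : S, ι (gen (resM M S) k) = gen M k.1) (g₀ : Art M) (s t : S) (g h : Art (resM M S)) :
    Jv M (Subtype.val '' T) (s.1, g₀ * ι g) (t.1, g₀ * ι h) ↔ Jv (resM M S) T (s, g) (t, h) := by
  have hm : ∀ (L : Set S) (x : Art (resM M S)), ι x ∈ ap M (Subtype.val '' L) ↔ x ∈ ap (resM M S) L := by
    intro L x
    rw [← map_ap ι hg]
    exact Subgroup.mem_map_iff_mem hi
  have hs : ∀ (L : Set S) (y : Art M), y ∈ ap M (Subtype.val '' L) → ∃ x ∈ ap (resM M S) L, ι x = y := by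
    intro L y hy
    rw [← map_ap ι hg] at hy
    exact Subgroup.mem_map.1 hy
  have e1 : (Subtype.val '' T) \ {s.1} = Subtype.val '' (T \ {s}) := by
    rw [Set.image_diff Subtype.val_injective, Set.image_singleton]
  have e2 : (Subtype.val '' T) \ {t.1} = Subtype.val '' (T \ {t}) := by
    rw [Set.image_diff Subtype.val_injective, Set.image_singleton]
  unfold Jv Mt
  dsimp only
  rw [e1, e2]
  constructor
  · rintro ⟨x, h1, h2⟩
    obtain ⟨u, hu, hu'⟩ := hs _ _ h1
    have hx : x = g₀ * ι (g * u) := by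
      rw [map_mul, hu']
      group
    refine ⟨g * u, ?_, ?_⟩
    · rw [inv_mul_cancel_left]
      exact hu
    · rw [← hm, map_mul, map_inv]
      have e : (ι h)⁻¹ * ι (g * u) = (g₀ * ι h)⁻¹ * x := by
        rw [hx]
        group
      rw [e]
      exact h2
  · rintro ⟨x, h1, h2⟩
    refine ⟨g₀ * ι x, ?_, ?_⟩
    · have e : (g₀ * ι g)⁻¹ * (g₀ * ι x) = ι (g⁻¹ * x) := by
        rw [map_mul, map_inv]
        group
      rw [e, hm]
      exact h1
    · have e : (g₀ * ι h)⁻¹ * (g₀ * ι x) = ι (h⁻¹ * x) := by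
        rw [map_mul, map_inv]
        group
      rw [e, hm]
      exact h2

theorem polF_res (S : Set B) (T : Set S) : PolF (resM M S) T ↔ PolF M (Subtype.val '' T) := by
  obtain ⟨ι, hi, hg, -⟩ := exists_inc M S
  have hs : ∀ (L : Set S) (y : Art M), y ∈ ap M (Subtype.val '' L) → ∃ x ∈ ap (resM M S) L, ι x = y := by
    intro L y hy
    rw [← map_ap ι hg] at hy
    exact Subgroup.mem_map.1 hy
  constructor
  · intro H n f hn hf hsum
    obtain ⟨g₀, hg₀⟩ : ∃ g₀, g₀ = (f 0).2 := ⟨_, rfl⟩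
    have h1 : ∀ i, ∃ g : Art (resM M S), g₀ * ι g = (f i).2 := by
      intro i
      induction i with
      | zero => exact ⟨1, by rw [map_one, mul_one, hg₀]⟩
      | succ i ih =>
        obtain ⟨g, hgi⟩ := ih
        obtain ⟨x, h1, h2⟩ := hf.adj i
        obtain ⟨u, -, hu⟩ := hs _ _ (ap_mono Set.sdiff_subset h1)
        obtain ⟨v, -, hv⟩ := hs _ _ (ap_mono Set.sdiff_subset h2)
        refine ⟨g * u * v⁻¹, ?_⟩
        rw [map_mul, map_mul, map_inv, ← mul_assoc, ← mul_assoc, hgi, hu, hv]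
        group
    have h2 : ∀ i, ∃ y : S × Art (resM M S), y.1 ∈ T ∧ y.1.1 = (f i).1 ∧ g₀ * ι y.2 = (f i).2 := by
      intro i
      obtain ⟨s, hs1, hs2⟩ := hf.mem i
      obtain ⟨g, hgi⟩ := h1 i
      exact ⟨(s, g), hs1, hs2, hgi⟩
    choose y hy1 hy2 hy3 using h2
    have hfy : ∀ i, f i = ((y i).1.1, g₀ * ι (y i).2) := fun i => by
      rw [hy2, hy3]
    have hC : Chn (resM M S) T n y := by
      refine ⟨fun i => ?_, hy1, fun i he => hf.ne i ?_, fun i => ?_⟩
      · have e := hf.per i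
        rw [hfy, hfy] at e
        have e1 := congrArg Prod.fst e
        have e2 := congrArg Prod.snd e
        exact Prod.ext (Subtype.ext e1) (hi (mul_left_cancel e2))
      · rw [← hy2, ← hy2, he]
      · have h3 := hf.adj i
        rw [hfy i, hfy (i + 1)] at h3
        exact (key ι hi hg g₀ _ _ _ _).1 h3
    obtain ⟨i, hdi⟩ := H n y hn hC (by
      have e : fsum (resM M S) n y = fsum M n f := by
        unfold fsum
        refine Finset.sum_congr rfl fun i _ => ?_
        rw [← hy2 i, ← hy2 (i + 1)]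
        rfl
      rw [e]
      exact hsum)
    refine ⟨i, ?_⟩
    rw [hfy i, hfy (i + 2)]
    exact (key ι hi hg g₀ _ _ _ _).2 hdi
  · intro H n f hn hf hsum
    obtain ⟨i, hdi⟩ := H n (fun i => ((f i).1.1, 1 * ι (f i).2)) hn (by
      refine ⟨fun i => ?_, fun i => ⟨(f i).1, hf.mem i, rfl⟩, fun i he => hf.ne i (Subtype.ext he), fun i => ?_⟩
      · show ((f (i + n)).1.1, 1 * ι (f (i + n)).2) = ((f i).1.1, 1 * ι (f i).2)
        rw [hf.per i]
      · exact (key ι hi hg 1 _ _ _ _).2 (hf.adj i)) hsum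
    exact ⟨i, (key ι hi hg 1 _ _ _ _).1 hdi⟩

end Pool.Agent.H54.BS
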