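import Pool.Agent.H54.BS.Sph
import Pool.Agent.H54.BS.Cv
import Pool.Agent.H54.BS.Res
import Pool.Agent.H54.BS.Gop

/-!
# [H54 BS ALL] POLY for all subsets
-/

set_option autoImplicit false

namespace Pool.Agent.H54.BS

open Pool.H8.CDW Pool.Agent.H52.PAG Pool.Agent.H75.INF Pool.Agent.H54.TF Pool.Agent.H52.VK Pool.Agent.H34.TG

variable {B : Type} {M : CoxeterMatrix B}

theorem tri3_res {S : Set B} (h : Tri3 M S) : Tri3 (resM M S) Set.univ := fun i _ j _ k _ hij hjk hik =>
  h i.1 i.2 j.1 j.2 k.1 k.2 (fun e => hij (Subtype.ext e)) (fun e => hjk (Subtype.ext e)) (fun e => hik (Subtype.ext e))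

theorem val_compl {S : Set B} {p : B} (hp : p ∈ S) : Subtype.val '' ({⟨p, hp⟩}ᶜ : Set S) = S \ {p} := by
  ext x
  simp only [Set.mem_image, Set.mem_compl_iff, Set.mem_singleton_iff, Set.mem_sdiff]
  constructor
  · rintro ⟨y, hy, rfl⟩
    exact ⟨y.2, fun h => hy (Subtype.ext h)⟩
  · rintro ⟨hx, hxp⟩
    exact ⟨⟨x, hx⟩, fun h => hxp (congrArg Subtype.val h), rfl⟩

theorem pol_all (hP : PStep) (hG : SphG) (hb : B1s) (hfo : Fors) [Finite B] (hM : ∀ i j, M i j ≠ 0) (n : ℕ) :
    ∀ S : Set B, S.ncard = n → (∀ T ⊆ S, Tri3 M T → Finite (resM M T).Group) → PolF M S := by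
  induction n using Nat.strong_induction_on with
  | _ n ih =>
    intro S hn h
    have e : Subtype.val '' (Set.univ : Set S) = S := by
      rw [Set.image_univ, Subtype.range_coe]
    by_cases h3 : Tri3 M S
    · have := (polF_res S Set.univ).1 (polF_sph hG hb hfo (h S subset_rfl h3) (tri3_res h3))
      rwa [e] at this
    · unfold Tri3 at h3
      push Not at h3
      obtain ⟨p, hp, q, hq, r, hr, hpq, hqr, hpr, hs⟩ := h3
      have h2 : ∀ i j : B, i ≠ j → 2 ≤ M i j := by
        intro i j hij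
        have h1 := M.off_diagonal _ _ hij
        have h0 := hM i j
        omega
      have hpol : ∀ t (ht : t ∈ S), Pol (resM M S) ({⟨t, ht⟩}ᶜ : Set S) := by
        intro t ht
        rw [pol_iff, polF_res, val_compl]
        refine ih (S \ {t}).ncard ?_ _ rfl fun T hT => h T (hT.trans Set.sdiff_subset)
        rw [← hn]
        exact Set.ncard_sdiff_singleton_lt_of_mem ht (Set.toFinite S)
      have key : Pol (resM M S) Set.univ := hP S (resM M S) (fun i j => hM i.1 j.1) ⟨p, hp⟩ ⟨q, hq⟩ ⟨r, hr⟩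
        (fun e => hpq (congrArg Subtype.val e)) (fun e => hqr (congrArg Subtype.val e)) (fun e => hpr (congrArg Subtype.val e))
        (wt_sum (M := M) (h2 p q hpq) (h2 q r hqr) (h2 p r hpr) hs) (hpol p hp) (hpol q hq) (hpol r hr)
      rw [pol_iff, polF_res, e] at key
      exact key

end Pool.Agent.H54.BS
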