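import Pool.Agent.H54.BS.Defs

/-!
# [H54 BS TRE] Separation in forests (30 min)

`E x y := 3 ≤ M x y`. `T = {x | ReflTransGen (fun x y => E x y ∧ y ≠ b) c x}` (the component of `c` without `b`; `c ≠ b` because `M b b = 1`). If `y ∉ T`: `Sep M b c y` with `T` (`b ∉ T`: the last step or `c ≠ b`; `i ∈ T`, `j ∉ T`, `j ≠ b`: `M i j < 3`,
`M i j ≠ 1` (`i ≠ j`, `M.off_diagonal`), `≠ 0`, so `= 2`). Same with `b` and `c` exchanged (`T'`). If `y ∈ T` and `y ∈ T'`: the path from `c` to `y` has no vertex `b`, the path from `b` to `y` no vertex `c`: both do not use the edge, and together (the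
second one reversed, `M` symmetric) they give `b` to `c` without the edge (`Forest`): a contradiction.
-/

set_option autoImplicit false

namespace Pool.Agent.H54.BS

open Pool.H8.CDW Pool.Agent.H52.PAG Pool.Agent.H75.INF Pool.Agent.H54.TF Pool.Agent.H52.VK Pool.Agent.H34.TG

variable {B : Type} {M : CoxeterMatrix B}

private theorem sep_of (hM : ∀ i j, M i j ≠ 0) {b c y : B} (hcb : c ≠ b) (hy : y ≠ b)
    (h : ¬ Relation.ReflTransGen (fun x z => 3 ≤ M x z ∧ z ≠ b) c y) : Sep M b c y := by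
  refine ⟨{x | Relation.ReflTransGen (fun x z => 3 ≤ M x z ∧ z ≠ b) c x}, ?_, ?_, h, hy, ?_⟩
  · intro hb
    rcases Relation.ReflTransGen.cases_tail hb with h1 | ⟨_, _, h2⟩
    · exact hcb h1.symm
    · exact h2.2 rfl
  · exact Relation.ReflTransGen.refl
  · intro i hi j hj hjb
    have h3 : ¬ 3 ≤ M i j := fun h3 => hj (Relation.ReflTransGen.tail hi ⟨h3, hjb⟩)
    have h0 := hM i j
    have hij : i ≠ j := by
      rintro rfl
      exact hj hi
    have h1 := M.off_diagonal i j hij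
    omega

private theorem avoid {b c y : B} (hcb : c ≠ b)
    (h : Relation.ReflTransGen (fun x z => 3 ≤ M x z ∧ z ≠ b) c y) :
    y ≠ b ∧ Relation.ReflTransGen (fun x z => 3 ≤ M x z ∧ x ≠ b ∧ z ≠ b) c y := by
  induction h with
  | refl => exact ⟨hcb, Relation.ReflTransGen.refl⟩
  | tail _ h2 ih => exact ⟨h2.2, ih.2.tail ⟨h2.1, ih.1, h2.2⟩⟩

theorem tree (hM : ∀ i j, M i j ≠ 0) (h : Forest M) {b c y : B} (hbc : 3 ≤ M b c) (hb : y ≠ b) (hc : y ≠ c) : Sep M b c y ∨ Sep M c b y := by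
  have hcb : c ≠ b := by
    rintro rfl
    have := M.diagonal c
    omega
  by_cases h1 : Relation.ReflTransGen (fun x z => 3 ≤ M x z ∧ z ≠ b) c y
  · by_cases h2 : Relation.ReflTransGen (fun x z => 3 ≤ M x z ∧ z ≠ c) b y
    · exfalso
      have a1 := (avoid hcb h1).2
      have a2 := (avoid hcb.symm h2).2
      refine h b c hbc ?_
      have b2 : Relation.ReflTransGen (fun x y => 3 ≤ M x y ∧ ¬ (x = b ∧ y = c) ∧ ¬ (x = c ∧ y = b)) b y :=
        Relation.ReflTransGen.mono (fun x z hxz => ⟨hxz.1, fun hh => hxz.2.2 hh.2, fun hh => hxz.2.1 hh.1⟩) b y a2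
      have b1 : Relation.ReflTransGen (fun x y => 3 ≤ M x y ∧ ¬ (x = b ∧ y = c) ∧ ¬ (x = c ∧ y = b)) y c := by
        have a3 := a1.swap
        refine Relation.ReflTransGen.mono (fun x z hxz => ?_) y c a3
        have hxz' : 3 ≤ M z x ∧ z ≠ b ∧ x ≠ b := hxz
        refine ⟨?_, fun hh => hxz'.2.2 hh.1, fun hh => hxz'.2.1 hh.2⟩
        rw [M.symmetric x z]
        exact hxz'.1
      exact b2.trans b1
    · exact Or.inr (sep_of hM hcb.symm hc h2)
  · exact Or.inl (sep_of hM hcb hb h1)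

/-- two joined types are not separated -/
theorem not_sep {t s₁ s₂ : B} (h : 3 ≤ M s₁ s₂) : ¬ Sep M t s₁ s₂ := by
  rintro ⟨T, _, h1, h2, h3, h4⟩
  have := h4 s₁ h1 s₂ h2 h3
  omega

end Pool.Agent.H54.BS
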