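import Pool.Agent.H54.BS.Defs

/-!
# [H54 BS ALT] Alternating chains (45 min; the converse of GOP)

Suppose not degenerate. `n` is even (if `n = 2 i + 1` then `f n = f 0` has type `b`, but also `c`), `n = 2 k`, `0 < k < m`. Choose (for all `j`, periodic: it is enough to choose for `j < n` and to put `e n = e 0`) `e j` in
both cosets of `f (j - 1)` and `f j` (`adj`), that is `e (j + 1) ∈ f j ∩ f (j + 1)`, `e 0 = e n`. `x r = (e (2 r))⁻¹ * e (2 r + 1) ∈ ap M {b}ᶜ` (both in the coset of `f (2 r)`), `y r = (e (2 r + 1))⁻¹ * e (2 r + 2) ∈ ap M {c}ᶜ`.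
`x r ∉ ap M {c}ᶜ`: otherwise `f (2 r - 1)` and `f (2 r + 1)` (both of type `c`, containing `e (2 r)` and `e (2 r + 1)`) have a common element: `Deg` (for `r = 0` use the place `2 r - 1 + n`). Same for `y`. The product
`alp x y k = (e 0)⁻¹ * e (2 k) = 1` (induction). `Gir` gives the contradiction. (`Set.univ \ {b} = {b}ᶜ`: `univ_diff` in H54/TF/Adp.)
-/

set_option autoImplicit false

namespace Pool.Agent.H54.BS

open Pool.H8.CDW Pool.Agent.H52.PAG Pool.Agent.H75.INF Pool.Agent.H54.TF Pool.Agent.H52.VK Pool.Agent.H34.TG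

variable {B : Type} {M : CoxeterMatrix B}

/-- products of quotients of consecutive chambers -/
private theorem alp_tel {G : Type} [Group G] (d : ℕ → G) (k : ℕ) :
    alp (fun r => (d (2 * r + 1))⁻¹ * d (2 * r + 2)) (fun r => (d (2 * r + 2))⁻¹ * d (2 * r + 3)) k =
      (d 1)⁻¹ * d (2 * k + 1) := by
  induction k with
  | zero => exact (inv_mul_cancel _).symm
  | succ k ih =>
    show alp _ _ k * ((d (2 * k + 1))⁻¹ * d (2 * k + 2) * ((d (2 * k + 2))⁻¹ * d (2 * k + 3))) = _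
    rw [ih]
    show _ = (d 1)⁻¹ * d (2 * k + 3)
    group

theorem alt_deg {n m : ℕ} {f : ℕ → B × Art M} (hf : Chn M Set.univ n f) (hn : 0 < n) {b c : B} (hbc : b ≠ c) (ht : ∀ i, (f (2 * i)).1 = b ∧ (f (2 * i + 1)).1 = c)
    (hg : Gir (ap M ({b}ᶜ : Set B)) (ap M ({c}ᶜ : Set B)) m) (hm : n < 2 * m) : Deg M Set.univ f := by
  classical
  by_contra hnd
  have hper : Function.Periodic f n := hf.per
  have huniv : ∀ t : B, (Set.univ \ {t} : Set B) = ({t}ᶜ : Set B) := fun t =>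
    (Set.compl_eq_univ_sdiff _).symm
  obtain ⟨k, hk⟩ : ∃ k, n = 2 * k := by
    rcases Nat.even_or_odd' n with ⟨k, hk | hk⟩
    · exact ⟨k, hk⟩
    · exfalso
      have h1 := (ht k).2
      have h2 := (ht 0).1
      have h3 := hf.per 0
      rw [Nat.zero_add, hk] at h3
      rw [h3] at h1
      exact hbc (h2.symm.trans h1)
  -- the chambers
  have hch : ∀ j, ∃ x : Art M, (f j).2⁻¹ * x ∈ ap M (Set.univ \ {(f j).1}) ∧
      (f (j + 1)).2⁻¹ * x ∈ ap M (Set.univ \ {(f (j + 1)).1}) := fun j => hf.adj j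
  choose d0 hd0 using hch
  obtain ⟨d, hd⟩ : ∃ d : ℕ → Art M, ∀ j, d j = d0 (j % n) := ⟨_, fun _ => rfl⟩
  have hd1 : ∀ j, (f j).2⁻¹ * d j ∈ ap M (Set.univ \ {(f j).1}) := by
    intro j
    have h1 := (hd0 (j % n)).1
    rw [hper.map_mod_nat j, ← hd j] at h1
    exact h1
  have hd2 : ∀ j, (f (j + 1)).2⁻¹ * d j ∈ ap M (Set.univ \ {(f (j + 1)).1}) := by
    intro j
    have h1 := (hd0 (j % n)).2
    have h2 : f (j % n + 1) = f (j + 1) := by
      rw [← hper.map_mod_nat (j % n + 1), ← hper.map_mod_nat (j + 1), Nat.mod_add_mod]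
    rw [h2, ← hd j] at h1
    exact h1
  have hin : ∀ j, (d j)⁻¹ * d (j + 1) ∈ ap M (Set.univ \ {(f (j + 1)).1}) := by
    intro j
    have h1 := mul_mem (inv_mem (hd2 j)) (hd1 (j + 1))
    have h2 : ((f (j + 1)).2⁻¹ * d j)⁻¹ * ((f (j + 1)).2⁻¹ * d (j + 1)) = (d j)⁻¹ * d (j + 1) := by
      group
    rw [h2] at h1
    exact h1
  have hout : ∀ j, (d j)⁻¹ * d (j + 1) ∉ ap M (Set.univ \ {(f j).1}) := by
    intro j hcon
    refine hnd ⟨j, d (j + 1), ?_, hd2 (j + 1)⟩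
    have h1 := mul_mem (hd1 j) hcon
    have h2 : (f j).2⁻¹ * d j * ((d j)⁻¹ * d (j + 1)) = (f j).2⁻¹ * d (j + 1) := by
      group
    rw [h2] at h1
    exact h1
  refine hg (fun r => (d (2 * r + 1))⁻¹ * d (2 * r + 2)) (fun r => (d (2 * r + 2))⁻¹ * d (2 * r + 3)) k
    (by omega) (by omega) (fun r _ => ⟨?_, ?_⟩) (fun r _ => ⟨?_, ?_⟩) ?_
  · have h1 := hin (2 * r + 1)
    have h2 : (f (2 * r + 1 + 1)).1 = b := (ht (r + 1)).1
    rw [h2, huniv] at h1
    exact h1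
  · have h1 := hout (2 * r + 1)
    rw [(ht r).2, huniv] at h1
    exact h1
  · have h1 := hin (2 * r + 2)
    have h2 : (f (2 * r + 2 + 1)).1 = c := (ht (r + 1)).2
    rw [h2, huniv] at h1
    exact h1
  · have h1 := hout (2 * r + 2)
    have h2 : (f (2 * r + 2)).1 = b := (ht (r + 1)).1
    rw [h2, huniv] at h1
    exact h1
  · rw [alp_tel, ← hk]
    have h1 : d (n + 1) = d 1 := by
      rw [hd, hd, Nat.add_mod_left]
    rw [h1, inv_mul_cancel]

end Pool.Agent.H54.BS
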