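import Pool.Agent.H54.BS.Zig
import Pool.Agent.H54.BS.Wts
import Pool.Agent.H54.BS.Alt
import Pool.Agent.H34.TG.Dih

/-!
# [H54 BS ISO] Chains with a label at least six (45 min)

Suppose not `Deg`. `b = (f i₀).1`, `c = (f (i₀ + 1)).1`, `6 ≤ M b c`. For `y ≠ b, c`: `M b y = 2` and `M c y = 2`: the triple `b, c, y` has `1/M b c ≤ 1/6`, so `1/M c y + 1/M b y > 5/6`, both labels are `≥ 2`, and one of them `≥ 3` would give `≤ 1/3 + 1/2`.
So `Sep M c b y` (`T = {b}`) and `Sep M b c y` (`T = {c}`) for all `y ≠ b, c`. With `sep_false`: if `(f k).1 = b`, `(f (k + 1)).1 = c` then `(f (k + 2)).1 ∈ {b, c}`, so `= b` (`ne`); same with `b`, `c` exchanged. Induction: `(f (i₀ + 2 j)).1 = b`, `(f (i₀ + 2 j + 1)).1 = c`.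
The shifted chain `f' j = f (i₀ + j)` is a `Chn`, its `Deg` gives `Deg` of `f`. `fsum M n f = n * wt M b c = n / M b c` (`wt_symm`; all terms of the sum over a period are equal, also for `f` itself: every index `≡ i₀ + j`, use period or show that all `(f i).1`, `(f (i+1)).1` are
`{b, c}` because `i + n * i₀ ≥ i₀`), so `n < 2 * M b c`. `gir_dih` (H34/TG/Dih) and `alt_deg`.
-/

set_option autoImplicit false

namespace Pool.Agent.H54.BS

open Pool.H8.CDW Pool.Agent.H52.PAG Pool.Agent.H75.INF Pool.Agent.H54.TF Pool.Agent.H52.VK Pool.Agent.H34.TG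

variable {B : Type} {M : CoxeterMatrix B}

private theorem two_of_six {p q r : ℕ} (hp : 6 ≤ p) (hq : 2 ≤ q) (hr : 2 ≤ r)
    (h : 1 < (1 : ℝ) / p + 1 / q + 1 / r) : q = 2 ∧ r = 2 := by
  have h1 : (1 : ℝ) / p ≤ 1 / 6 := one_div_le_one_div_of_le (by norm_num) (by exact_mod_cast hp)
  have h2 : (1 : ℝ) / q ≤ 1 / 2 := one_div_le_one_div_of_le (by norm_num) (by exact_mod_cast hq)
  have h3 : (1 : ℝ) / r ≤ 1 / 2 := one_div_le_one_div_of_le (by norm_num) (by exact_mod_cast hr)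
  constructor
  · by_contra hne
    have h4 : 3 ≤ q := by omega
    have h5 : (1 : ℝ) / q ≤ 1 / 3 := one_div_le_one_div_of_le (by norm_num) (by exact_mod_cast h4)
    linarith
  · by_contra hne
    have h4 : 3 ≤ r := by omega
    have h5 : (1 : ℝ) / r ≤ 1 / 3 := one_div_le_one_div_of_le (by norm_num) (by exact_mod_cast h4)
    linarith

private theorem per_mul {n : ℕ} {f : ℕ → B × Art M} (hf : Chn M Set.univ n f) (i k : ℕ) : f (i + n * k) = f i := by
  induction k with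
  | zero => simp
  | succ k ih =>
    rw [Nat.mul_succ, ← Nat.add_assoc, hf.per, ih]

theorem deg_iso (hM : ∀ i j, M i j ≠ 0) (h3 : Tri3 M Set.univ) {n : ℕ} (hn : 0 < n) {f : ℕ → B × Art M} (hf : Chn M Set.univ n f)
    {i₀ : ℕ} (h6 : 6 ≤ M (f i₀).1 (f (i₀ + 1)).1) (hs : fsum M n f < 2) : Deg M Set.univ f := by
  by_contra hd
  obtain ⟨b, hb⟩ : ∃ b, (f i₀).1 = b := ⟨_, rfl⟩
  obtain ⟨c, hc⟩ : ∃ c, (f (i₀ + 1)).1 = c := ⟨_, rfl⟩
  have hbc : b ≠ c := by
    rw [← hb, ← hc]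
    exact hf.ne i₀
  rw [hb, hc] at h6
  have hge : ∀ x y : B, x ≠ y → 2 ≤ M x y := fun x y h => by
    have h1 := hM x y
    have h2 := M.off_diagonal x y h
    change M x y ≠ 1 at h2
    omega
  have h2 : ∀ y, y ≠ b → y ≠ c → M c y = 2 ∧ M b y = 2 := fun y hyb hyc =>
    two_of_six h6 (hge c y (Ne.symm hyc)) (hge b y (Ne.symm hyb))
      (h3 b (Set.mem_univ _) c (Set.mem_univ _) y (Set.mem_univ _) hbc (Ne.symm hyc) (Ne.symm hyb))
  have s1 : ∀ y, y ≠ b → y ≠ c → Sep M c b y := fun y hyb hyc =>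
    ⟨{b}, fun h => hbc h.symm, rfl, fun h => hyb h, hyc, by
      intro i hi j hj hjc
      have hib : i = b := hi
      rw [hib]
      exact (h2 j (fun h => hj h) hjc).2⟩
  have s2 : ∀ y, y ≠ b → y ≠ c → Sep M b c y := fun y hyb hyc =>
    ⟨{c}, fun h => hbc h, rfl, fun h => hyc h, hyb, by
      intro i hi j hj hjb
      have hic : i = c := hi
      rw [hic]
      exact (h2 j hjb (fun h => hj h)).1⟩
  have t1 : ∀ k, (f k).1 = b → (f (k + 1)).1 = c → (f (k + 2)).1 = b := by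
    intro k hk hk1
    by_contra hne
    have hnc : (f (k + 2)).1 ≠ c := fun h => hf.ne (k + 1) (by rw [hk1]; exact h.symm)
    refine sep_false hf hd k ?_
    rw [hk, hk1]
    exact s1 _ hne hnc
  have t2 : ∀ k, (f k).1 = c → (f (k + 1)).1 = b → (f (k + 2)).1 = c := by
    intro k hk hk1
    by_contra hne
    have hnb : (f (k + 2)).1 ≠ b := fun h => hf.ne (k + 1) (by rw [hk1]; exact h.symm)
    refine sep_false hf hd k ?_
    rw [hk, hk1]
    exact s2 _ hnb hne
  have alt : ∀ j, (f (i₀ + 2 * j)).1 = b ∧ (f (i₀ + (2 * j + 1))).1 = c := by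
    intro j
    induction j with
    | zero => exact ⟨hb, hc⟩
    | succ j ih =>
      have e1 : (f (i₀ + 2 * (j + 1))).1 = b := t1 (i₀ + 2 * j) ih.1 ih.2
      exact ⟨e1, t2 (i₀ + (2 * j + 1)) ih.2 e1⟩
  have hf' : Chn M Set.univ n (fun j => f (i₀ + j)) :=
    ⟨fun i => by rw [← Nat.add_assoc]; exact hf.per (i₀ + i), fun i => hf.mem _, fun i => hf.ne (i₀ + i), fun i => hf.adj (i₀ + i)⟩
  have hlab : lab (M b c) = M b c := by
    unfold lab
    rw [if_neg (by omega)]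
  have hw : wt M b c = 1 / (M b c : ℝ) := by
    unfold wt
    rw [hlab]
  have hterm : ∀ i, wt M (f i).1 (f (i + 1)).1 = 1 / (M b c : ℝ) := by
    intro i
    have hle : i₀ ≤ i + n * i₀ := by nlinarith
    obtain ⟨j, hj⟩ := Nat.exists_eq_add_of_le hle
    have e1 : f i = f (i₀ + j) := by rw [← hj, per_mul hf]
    have e2 : f (i + 1) = f (i₀ + (j + 1)) := by
      rw [← Nat.add_assoc, ← hj, show i + n * i₀ + 1 = (i + 1) + n * i₀ by ring, per_mul hf]
    rw [e1, e2]
    rcases Nat.even_or_odd' j with ⟨k, rfl | rfl⟩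
    · rw [(alt k).1, (alt k).2, hw]
    · rw [(alt k).2, show 2 * k + 1 + 1 = 2 * (k + 1) by ring, (alt (k + 1)).1, wt_symm, hw]
  have hsum : fsum M n f = n * (1 / (M b c : ℝ)) := by
    unfold fsum
    rw [Finset.sum_congr rfl (fun i _ => hterm i), Finset.sum_const, Finset.card_range, nsmul_eq_mul]
  have hlt : n < 2 * M b c := by
    rw [hsum] at hs
    have hp : (0 : ℝ) < (M b c : ℝ) := by
      have : 0 < M b c := by omega
      exact_mod_cast this
    rw [mul_one_div, div_lt_iff₀ hp] at hs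
    exact_mod_cast hs
  have hg : Gir (ap M ({b}ᶜ : Set B)) (ap M ({c}ᶜ : Set B)) (M b c) :=
    gir_dih M hbc (by omega) (fun s hsb hsc => by rw [M.symmetric s b]; exact (h2 s hsb hsc).2)
      (fun s hsb hsc => by rw [M.symmetric s c]; exact (h2 s hsb hsc).1)
  obtain ⟨i, hi⟩ := alt_deg hf' hn hbc (fun i => alt i) hg hlt
  exact hd ⟨i₀ + i, hi⟩

end Pool.Agent.H54.BS
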