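import Pool.Agent.H54.BS.Wts

/-!
# [H54 BS N4] Chains of length four (25 min)

Not all four labels are `2`: otherwise `fsum = 4 * (1 / 2) = 2` (`wt_two`, `Finset.sum_range_succ`). The labels of different types are not `0`, `1` (`hM`, `M.off_diagonal`), so some `i < 4` has `3 ≤ M (f i).1 (f (i + 1)).1`.
`hF` (H54/TF/Defs, `FC`) with `K₃ = univ \ {(f (i + 2)).1}`, `K₄ = univ \ {(f (i + 3)).1}`, `g₁ = (f i).2`, ...; the fourth meeting is `adj (i + 3)` with `f (i + 4) = f i`. `Jv` is `Mt` by definition.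
-/

set_option autoImplicit false

namespace Pool.Agent.H54.BS

open Pool.H8.CDW Pool.Agent.H52.PAG Pool.Agent.H75.INF Pool.Agent.H54.TF Pool.Agent.H52.VK Pool.Agent.H34.TG

variable {B : Type} {M : CoxeterMatrix B}

theorem deg_four (hM : ∀ i j, M i j ≠ 0) (hF : ∀ b c, 3 ≤ M b c → FC M Set.univ b c) {f : ℕ → B × Art M}
    (hf : Chn M Set.univ 4 f) (hs : fsum M 4 f < 2) : Deg M Set.univ f := by
  have hex : ∃ i, 3 ≤ M (f i).1 (f (i + 1)).1 := by
    by_contra hno
    have h2 : ∀ i, wt M (f i).1 (f (i + 1)).1 = 1 / 2 := by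
      intro i
      refine wt_two ?_
      have h0 := hM (f i).1 (f (i + 1)).1
      have h1 := M.off_diagonal (f i).1 (f (i + 1)).1 (hf.ne i)
      have h3 : ¬ 3 ≤ M (f i).1 (f (i + 1)).1 := fun h => hno ⟨i, h⟩
      omega
    unfold fsum at hs
    rw [Finset.sum_congr rfl fun i _ => h2 i] at hs
    norm_num at hs
  obtain ⟨i, hi⟩ := hex
  have h4 : Jv M Set.univ (f (i + 3)) (f i) := by
    have h := hf.adj (i + 3)
    rw [show i + 3 + 1 = i + 4 from rfl, hf.per i] at h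
    exact h
  rcases hF _ _ hi (Set.univ \ {(f (i + 2)).1}) (Set.univ \ {(f (i + 3)).1}) (f i).2 (f (i + 1)).2 (f (i + 2)).2
    (f (i + 3)).2 Set.sdiff_subset Set.sdiff_subset (hf.adj i) (hf.adj (i + 1)) (hf.adj (i + 2)) h4 with h | h
  · exact ⟨i, h⟩
  · exact ⟨i + 1, h⟩

end Pool.Agent.H54.BS
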