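import Pool.Agent.H54.BS.Zig
import Pool.Agent.H54.BS.Wts

/-!
# [H54 BS N5] Chains of length five (50 min)

`t i = (f i).1`, suppose not `Deg`. Labels of neighbours are in `{2, .., 5}` (`hM`, `off_diagonal`, `h5`), weights `1/2` for the label `2`, otherwise between `1/4` and `1/3`. If three or more of the five labels are `2` then `fsum ≥ 3/2 + 2/4 = 2`. So
at most two are `2`. `zig`: consecutive labels `≥ 3` at `i, i + 1`: `t (i + 2) = t i`.
None is `2`: `t 2 = t 0`, `t 4 = t 2`, `t 1 = t 6 = t 4`, so `t 0 = t 1`, contradiction to `ne`. One is `2`, after a shift `M (t 4) (t 5) = 2`: `t 2 = t 0`, `t 4 = t 2`: `t 4 = t 0 = t 5`, contradiction.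
Two are `2`. Write a lemma for `f` with a fixed position and use it for the shifted chains `fun j => f (i + j)` (also `Chn`, same `fsum`, `Deg` of the shift gives `Deg`).
 (A) the labels at `3`, `4` are `2`: `t 2 = t 0`, `t 3 = t 1`, `y = t 4` is neither: `hT (t 0) (t 1) (t 4)`: `Sep M (t 0) (t 1) (t 4)` is (`sep_symm`, period) `Sep M (f 5).1 (f 6).1 (f 4).1`: `sep_false` at `4`; `Sep M (t 1) (t 0) (t 4)` is
 `Sep M (f 3).1 (f 2).1 (f 4).1`: `sep_false` at `2`.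
 (B) the labels at `2`, `4` are `2`: `t 2 = t 0`; `hT (t 3) (t 4) (t 0)` (`t 0 = t 2 ≠ t 3`, `t 0 = t 5 ≠ t 4`): `Sep M (t 3) (t 4) (t 2)`: `sep_symm`, `sep_false` at `2`; `Sep M (t 4) (t 3) (t 5)`: `sep_false` at `3`.
-/

set_option autoImplicit false

namespace Pool.Agent.H54.BS

open Pool.H8.CDW Pool.Agent.H52.PAG Pool.Agent.H75.INF Pool.Agent.H54.TF Pool.Agent.H52.VK Pool.Agent.H34.TG

variable {B : Type} {M : CoxeterMatrix B}

private theorem five_a (hT : TreeP M) {f : ℕ → B × Art M} (hf : Chn M Set.univ 5 f) (hd : ¬ Deg M Set.univ f) (i : ℕ)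
    (h0 : 3 ≤ M (f i).1 (f (i + 1)).1) (h1 : 3 ≤ M (f (i + 1)).1 (f (i + 2)).1)
    (h2 : 3 ≤ M (f (i + 2)).1 (f (i + 3)).1) : False := by
  have e2 : (f (i + 2)).1 = (f i).1 := zig hT hf hd h0 h1
  have e3 : (f (i + 3)).1 = (f (i + 1)).1 := zig hT hf hd (i := i + 1) h1 h2
  have p5 : f (i + 5) = f i := hf.per i
  have p6 : f (i + 6) = f (i + 1) := by
    have := hf.per (i + 1)
    rwa [show i + 1 + 5 = i + 6 by omega] at this
  have n4 := hf.ne (i + 4)
  rw [show i + 4 + 1 = i + 5 by omega, p5] at n4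
  have n3 := hf.ne (i + 3)
  rw [show i + 3 + 1 = i + 4 by omega, e3] at n3
  rcases hT (f i).1 (f (i + 1)).1 (f (i + 4)).1 h0 n4 n3.symm with h | h
  · have h' := sep_symm h
    have hs := sep_false hf hd (i + 4)
    rw [show i + 4 + 1 = i + 5 by omega, show i + 4 + 2 = i + 6 by omega, p5, p6] at hs
    exact hs h'
  · have hs := sep_false hf hd (i + 2)
    rw [show i + 2 + 1 = i + 3 by omega, show i + 2 + 2 = i + 4 by omega, e2, e3] at hs
    exact hs h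

private theorem five_b (hT : TreeP M) {f : ℕ → B × Art M} (hf : Chn M Set.univ 5 f) (hd : ¬ Deg M Set.univ f) (i : ℕ)
    (h0 : 3 ≤ M (f i).1 (f (i + 1)).1) (h1 : 3 ≤ M (f (i + 1)).1 (f (i + 2)).1)
    (h3 : 3 ≤ M (f (i + 3)).1 (f (i + 4)).1) : False := by
  have e2 : (f (i + 2)).1 = (f i).1 := zig hT hf hd h0 h1
  have p5 : f (i + 5) = f i := hf.per i
  have n4 := hf.ne (i + 4)
  rw [show i + 4 + 1 = i + 5 by omega, p5] at n4
  have n2 := hf.ne (i + 2)
  rw [show i + 2 + 1 = i + 3 by omega, e2] at n2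
  rcases hT (f (i + 3)).1 (f (i + 4)).1 (f i).1 h3 n2 n4.symm with h | h
  · have h' := sep_symm h
    have hs := sep_false hf hd (i + 2)
    rw [show i + 2 + 1 = i + 3 by omega, show i + 2 + 2 = i + 4 by omega, e2] at hs
    exact hs h'
  · have hs := sep_false hf hd (i + 3)
    rw [show i + 3 + 1 = i + 4 by omega, show i + 3 + 2 = i + 5 by omega, p5] at hs
    exact hs h

theorem deg_five (hM : ∀ i j, M i j ≠ 0) (hT : TreeP M) {f : ℕ → B × Art M} (hf : Chn M Set.univ 5 f)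
    (h5 : ∀ i, M (f i).1 (f (i + 1)).1 ≤ 5) (hs : fsum M 5 f < 2) : Deg M Set.univ f := by
  by_contra hd
  have hge : ∀ i, 2 ≤ M (f i).1 (f (i + 1)).1 := by
    intro i
    have h0 := hM (f i).1 (f (i + 1)).1
    have h1 := M.off_diagonal _ _ (hf.ne i)
    omega
  have hA : ∀ i, 3 ≤ M (f i).1 (f (i + 1)).1 → 3 ≤ M (f (i + 1)).1 (f (i + 2)).1 →
      3 ≤ M (f (i + 2)).1 (f (i + 3)).1 → False := fun i => five_a hT hf hd i
  have hB : ∀ i, 3 ≤ M (f i).1 (f (i + 1)).1 → 3 ≤ M (f (i + 1)).1 (f (i + 2)).1 →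
      3 ≤ M (f (i + 3)).1 (f (i + 4)).1 → False := fun i => five_b hT hf hd i
  have p5 : f 5 = f 0 := hf.per 0
  have p6 : f 6 = f 1 := hf.per 1
  have p7 : f 7 = f 2 := hf.per 2
  have p8 : f 8 = f 3 := hf.per 3
  have w : ∀ i, (M (f i).1 (f (i + 1)).1 = 2 ∧ wt M (f i).1 (f (i + 1)).1 = 1 / 2) ∨
      (3 ≤ M (f i).1 (f (i + 1)).1 ∧ 1 / 4 ≤ wt M (f i).1 (f (i + 1)).1) := by
    intro i
    rcases Nat.lt_or_ge (M (f i).1 (f (i + 1)).1) 3 with h | h
    · left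
      have h2 : M (f i).1 (f (i + 1)).1 = 2 := by
        have := hge i
        omega
      exact ⟨h2, wt_two h2⟩
    · right
      exact ⟨h, wt_ge (hge i) (h5 i)⟩
  have w0 := w 0
  have w1 := w 1
  have w2 := w 2
  have w3 := w 3
  have w4 := w 4
  have A0 := hA 0
  have A1 := hA 1
  have A2 := hA 2
  have A3 := hA 3
  have A4 := hA 4
  have B0 := hB 0
  have B1 := hB 1
  have B2 := hB 2
  have B3 := hB 3
  have B4 := hB 4
  unfold fsum at hs
  simp only [Finset.sum_range_succ, Finset.sum_range_zero] at hs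
  norm_num [p5, p6, p7, p8] at w0 w1 w2 w3 w4 A0 A1 A2 A3 A4 B0 B1 B2 B3 B4 hs
  clear hA hB w hge h5 hf hT hM hd
  generalize wt M (f 0).1 (f 1).1 = x0 at *
  generalize wt M (f 1).1 (f 2).1 = x1 at *
  generalize wt M (f 2).1 (f 3).1 = x2 at *
  generalize wt M (f 3).1 (f 4).1 = x3 at *
  generalize wt M (f 4).1 (f 0).1 = x4 at *
  rcases w0 with ⟨w0, y0⟩ | ⟨w0, y0⟩ <;> rcases w1 with ⟨w1, y1⟩ | ⟨w1, y1⟩ <;>
  rcases w2 with ⟨w2, y2⟩ | ⟨w2, y2⟩ <;> rcases w3 with ⟨w3, y3⟩ | ⟨w3, y3⟩ <;>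
  rcases w4 with ⟨w4, y4⟩ | ⟨w4, y4⟩ <;>
  first
    | (exfalso; linarith)
    | omega

end Pool.Agent.H54.BS
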