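import Pool.Agent.H54.BS.Zig
import Pool.Agent.H54.BS.Wts
import Pool.Agent.H54.BS.Alt

/-!
# [H54 BS N6] Chains of lengths six and seven (50 min)

`t i = (f i).1`, suppose not `Deg`. All weights are `≥ 1/4` (`wt_ge`), and `1/2` for the label `2`.
Seven: if a label is `2`: `fsum ≥ 1/2 + 6/4 = 2`. So all are `≥ 3` and `zig` gives `t (i + 2) = t i` for all `i`: `t 0 = t 2 = t 4 = t 6 = t 8 = t 1` (period), contradiction to `ne 0`.
Six: two labels `2`: `≥ 1 + 4/4 = 2`. One label `2`, at `i` (`i < 6`; shift): the other five `≥ 3`: `t (i + 3) = t (i + 1)`, `t (i + 5) = t (i + 3)`, `t (i + 4) = t (i + 2)`, `t (i + 6) = t (i + 4)`: the label at `i` is that of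
`t (i + 6) = t (i + 2)` and `t (i + 1)`, which is `≥ 3`: contradiction. No label `2`: `t` alternates, `b = t 0`, `c = t 1`, all weights are equal to `wt M b c` (`wt_symm`), so `wt M b c < 1/3` and `M b c` is `4` or `5`: `alt_deg` with `n = 6`, `m = 4`.
-/

set_option autoImplicit false

namespace Pool.Agent.H54.BS

open Pool.H8.CDW Pool.Agent.H52.PAG Pool.Agent.H75.INF Pool.Agent.H54.TF Pool.Agent.H52.VK Pool.Agent.H34.TG

variable {B : Type} {M : CoxeterMatrix B}

private theorem lab_ge (hM : ∀ i j, M i j ≠ 0) {x y : B} (h : x ≠ y) : 2 ≤ M x y := by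
  have h0 := hM x y
  have h1 := M.off_diagonal x y h
  omega

theorem deg_seven (hM : ∀ i j, M i j ≠ 0) (hT : TreeP M) {f : ℕ → B × Art M} (hf : Chn M Set.univ 7 f)
    (h5 : ∀ i, M (f i).1 (f (i + 1)).1 ≤ 5) (hs : fsum M 7 f < 2) : Deg M Set.univ f := by
  by_contra hd
  have h2 : ∀ i, 2 ≤ M (f i).1 (f (i + 1)).1 := fun i => lab_ge hM (hf.ne i)
  have hw : ∀ i, 1 / 4 ≤ wt M (f i).1 (f (i + 1)).1 := fun i => wt_ge (h2 i) (h5 i)
  have hsum : wt M (f 0).1 (f (0 + 1)).1 + wt M (f 1).1 (f (1 + 1)).1 + wt M (f 2).1 (f (2 + 1)).1 + wt M (f 3).1 (f (3 + 1)).1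
      + wt M (f 4).1 (f (4 + 1)).1 + wt M (f 5).1 (f (5 + 1)).1 + wt M (f 6).1 (f (6 + 1)).1 < 2 := by
    have h := hs
    unfold fsum at h
    simp only [Finset.sum_range_succ, Finset.sum_range_zero, zero_add] at h
    exact h
  have hw0 := hw 0
  have hw1 := hw 1
  have hw2 := hw 2
  have hw3 := hw 3
  have hw4 := hw 4
  have hw5 := hw 5
  have hw6 := hw 6
  have h3 : ∀ i, i < 7 → 3 ≤ M (f i).1 (f (i + 1)).1 := by
    intro i hi
    by_contra hc
    have h6 : M (f i).1 (f (i + 1)).1 = 2 := by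
      have := h2 i
      omega
    have h7 := wt_two h6
    interval_cases i <;> linarith
  have p7 : f 7 = f 0 := hf.per 0
  have p8 : f 8 = f 1 := hf.per 1
  have h37 : 3 ≤ M (f 7).1 (f (7 + 1)).1 := by
    rw [show (7 + 1 : ℕ) = 8 from rfl, p7, p8]
    exact h3 0 (by omega)
  have z0 : (f 2).1 = (f 0).1 := zig hT hf hd (i := 0) (h3 0 (by omega)) (h3 1 (by omega))
  have z2 : (f 4).1 = (f 2).1 := zig hT hf hd (i := 2) (h3 2 (by omega)) (h3 3 (by omega))
  have z4 : (f 6).1 = (f 4).1 := zig hT hf hd (i := 4) (h3 4 (by omega)) (h3 5 (by omega))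
  have z6 : (f 8).1 = (f 6).1 := zig hT hf hd (i := 6) (h3 6 (by omega)) h37
  refine hf.ne 0 ?_
  rw [← z0, ← z2, ← z4, ← z6, p8]

theorem deg_six (hM : ∀ i j, M i j ≠ 0) (hT : TreeP M) (hb : ∀ b c, (M b c = 4 ∨ M b c = 5) → Gir (ap M ({b}ᶜ : Set B)) (ap M ({c}ᶜ : Set B)) 4)
    {f : ℕ → B × Art M} (hf : Chn M Set.univ 6 f) (h5 : ∀ i, M (f i).1 (f (i + 1)).1 ≤ 5) (hs : fsum M 6 f < 2) : Deg M Set.univ f := by
  by_contra hd
  have h2 : ∀ i, 2 ≤ M (f i).1 (f (i + 1)).1 := fun i => lab_ge hM (hf.ne i)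
  have hw : ∀ i, 1 / 4 ≤ wt M (f i).1 (f (i + 1)).1 := fun i => wt_ge (h2 i) (h5 i)
  have hsum : wt M (f 0).1 (f (0 + 1)).1 + wt M (f 1).1 (f (1 + 1)).1 + wt M (f 2).1 (f (2 + 1)).1 + wt M (f 3).1 (f (3 + 1)).1
      + wt M (f 4).1 (f (4 + 1)).1 + wt M (f 5).1 (f (5 + 1)).1 < 2 := by
    have h := hs
    unfold fsum at h
    simp only [Finset.sum_range_succ, Finset.sum_range_zero, zero_add] at h
    exact h
  have hw0 := hw 0
  have hw1 := hw 1
  have hw2 := hw 2
  have hw3 := hw 3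
  have hw4 := hw 4
  have hw5 := hw 5
  have hper : ∀ i, M (f (i + 6)).1 (f (i + 6 + 1)).1 = M (f i).1 (f (i + 1)).1 := by
    intro i
    rw [show i + 6 + 1 = i + 1 + 6 from by omega, hf.per i, hf.per (i + 1)]
  have hthree : ∀ i, M (f i).1 (f (i + 1)).1 ≠ 2 → 3 ≤ M (f i).1 (f (i + 1)).1 := by
    intro i hi
    have := h2 i
    omega
  -- one label two
  have key : ∀ i, M (f i).1 (f (i + 1)).1 = 2 → 3 ≤ M (f (i + 1)).1 (f (i + 1 + 1)).1 → 3 ≤ M (f (i + 2)).1 (f (i + 2 + 1)).1 →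
      3 ≤ M (f (i + 3)).1 (f (i + 3 + 1)).1 → 3 ≤ M (f (i + 4)).1 (f (i + 4 + 1)).1 → 3 ≤ M (f (i + 5)).1 (f (i + 5 + 1)).1 → False := by
    intro i e0 e1 e2 e3 e4 e5
    have z2 : (f (i + 4)).1 = (f (i + 2)).1 := zig hT hf hd (i := i + 2) e2 e3
    have z4 : (f (i + 6)).1 = (f (i + 4)).1 := zig hT hf hd (i := i + 4) e4 e5
    have p6 : (f (i + 6)).1 = (f i).1 := by rw [hf.per i]
    have e6 : (f (i + 2)).1 = (f i).1 := by rw [← z2, ← z4, p6]
    rw [show i + 1 + 1 = i + 2 from rfl, e6, show M (f (i + 1)).1 (f i).1 = M (f i).1 (f (i + 1)).1 from M.symmetric _ _] at e1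
    omega
  have h3 : ∀ i, i < 6 → 3 ≤ M (f i).1 (f (i + 1)).1 := by
    intro i hi
    refine hthree i fun hc => ?_
    have h7 := wt_two hc
    have hoth : ∀ j, j < 6 → j ≠ i → 3 ≤ M (f j).1 (f (j + 1)).1 := by
      intro j hj hji
      refine hthree j fun hc' => ?_
      have h8 := wt_two hc'
      interval_cases i <;> interval_cases j <;> first | exact hji rfl | linarith
    have hmod : ∀ k, 0 < k → k < 6 → 3 ≤ M (f (i + k)).1 (f (i + k + 1)).1 := by
      intro k hk0 hk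
      rcases Nat.lt_or_ge (i + k) 6 with h | h
      · exact hoth (i + k) h (by omega)
      · have h9 := hoth (i + k - 6) (by omega) (by omega)
        rw [← hper (i + k - 6), show i + k - 6 + 6 = i + k from by omega] at h9
        exact h9
    exact key i hc (hmod 1 (by omega) (by omega)) (hmod 2 (by omega) (by omega)) (hmod 3 (by omega) (by omega))
      (hmod 4 (by omega) (by omega)) (hmod 5 (by omega) (by omega))
  have hall : ∀ i, 3 ≤ M (f i).1 (f (i + 1)).1 := by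
    intro i
    induction i using Nat.strong_induction_on with
    | _ i ih =>
      rcases Nat.lt_or_ge i 6 with h | h
      · exact h3 i h
      · have h9 := ih (i - 6) (by omega)
        rw [← hper (i - 6), show i - 6 + 6 = i from by omega] at h9
        exact h9
  have hz : ∀ i, (f (i + 2)).1 = (f i).1 := fun i => zig hT hf hd (hall i) (hall (i + 1))
  have ht : ∀ i, (f (2 * i)).1 = (f 0).1 ∧ (f (2 * i + 1)).1 = (f 1).1 := by
    intro i
    induction i with
    | zero => exact ⟨rfl, rfl⟩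
    | succ i ih =>
      refine ⟨?_, ?_⟩
      · rw [show 2 * (i + 1) = 2 * i + 2 from by omega, hz, ih.1]
      · rw [show 2 * (i + 1) + 1 = 2 * i + 1 + 2 from by omega, hz, ih.2]
  have hsy : M (f 1).1 (f 0).1 = M (f 0).1 (f 1).1 := M.symmetric _ _
  have hbc : M (f 0).1 (f 1).1 = 4 ∨ M (f 0).1 (f 1).1 = 5 := by
    have h30 := hall 0
    have h50 := h5 0
    rw [show (0 + 1 : ℕ) = 1 from rfl] at h30 h50
    have hne : M (f 0).1 (f 1).1 ≠ 3 := by
      intro h33
      have w1 := wt_three h33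
      have w2 : wt M (f 1).1 (f 0).1 = 1 / 3 := by rw [wt_symm]; exact w1
      have t2 := hz 0
      have t3 := hz 1
      have t4 := hz 2
      have t5 := hz 3
      have t6 := hz 4
      simp only [zero_add, Nat.reduceAdd] at hsum t2 t3 t4 t5 t6
      rw [t6, t5, t4, t3, t2, w1, w2] at hsum
      norm_num at hsum
    omega
  exact hd (alt_deg hf (by omega) (hf.ne 0) ht (hb _ _ hbc) (by omega))

end Pool.Agent.H54.BS
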