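import Pool.Agent.H54.BS.N4
import Pool.Agent.H54.BS.N5
import Pool.Agent.H54.BS.N6
import Pool.Agent.H54.BS.Iso
import Pool.Agent.H54.TF.Adp
import Pool.Agent.H54.TF.Pt
import Pool.Agent.H2.SPH.Del

/-!
# [H54 BS SPH] POLY for finite type with all triples spherical
-/

set_option autoImplicit false

namespace Pool.Agent.H54.BS

open Pool.H8.CDW Pool.Agent.H52.PAG Pool.Agent.H75.INF Pool.Agent.H54.TF Pool.Agent.H52.VK Pool.Agent.H34.TG

variable {B : Type} {M : CoxeterMatrix B}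

theorem fsum_ge {n : ℕ} {f : ℕ → B × Art M} (h : ∀ i, 1 / 4 ≤ wt M (f i).1 (f (i + 1)).1) : (n : ℝ) / 4 ≤ fsum M n f := by
  unfold fsum
  have h1 : ∑ i ∈ Finset.range n, (1 / 4 : ℝ) ≤ ∑ i ∈ Finset.range n, wt M (f i).1 (f (i + 1)).1 :=
    Finset.sum_le_sum fun i _ => h i
  rw [Finset.sum_const, Finset.card_range, nsmul_eq_mul] at h1
  linarith

theorem gs_univ (hS : SphG) [Finite B] (hf : Finite M.Group) {b c : B} (hbc : 3 ≤ M b c) : GS M Set.univ b c := by
  have hne : b ≠ c := by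
    intro h
    rw [h, M.diagonal] at hbc
    omega
  intro x hx x' hx' y hy y' hy' he
  rw [univ_diff] at hx hx' hy hy'
  rw [← Set.compl_eq_univ_sdiff]
  have e : y * x' = x⁻¹ * y'⁻¹ := by
    have e1 : x * (y * x') * y' = 1 := by
      rw [← he]
      group
    have e2 : x * (y * x') = y'⁻¹ := eq_inv_of_mul_eq_one_left e1
    rw [← e2]
    group
  rcases hS B M hf b c hne hbc x⁻¹ (inv_mem hx) x' hx' y hy y'⁻¹ (inv_mem hy') e with h3 | h3
  · left
    have h4 := inv_mem h3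
    rwa [inv_inv] at h4
  · exact Or.inr h3

theorem polF_sph (hG : SphG) (hb : B1s) (hfo : Fors) [Finite B] (hf : Finite M.Group) (h3 : Tri3 M Set.univ) :
    PolF M Set.univ := by
  have hM : ∀ i j, M i j ≠ 0 := by
    intro i j
    exact Pool.Agent.H2.SPH.label_ne_zero M.toCoxeterSystem i j
  intro n f hn hc hs
  have hT : TreeP M := fun b c y h1 h2 h4 => tree hM (hfo B M hf) h1 h2 h4
  have h2 : ∀ i, 2 ≤ M (f i).1 (f (i + 1)).1 := by
    intro i
    have h1 := M.off_diagonal _ _ (hc.ne i)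
    have h0 := hM (f i).1 (f (i + 1)).1
    omega
  by_cases h6 : ∃ i, 6 ≤ M (f i).1 (f (i + 1)).1
  · obtain ⟨i, hi⟩ := h6
    exact deg_iso hM h3 (by omega) hc hi hs
  · push Not at h6
    have h5 : ∀ i, M (f i).1 (f (i + 1)).1 ≤ 5 := fun i => by
      have := h6 i
      omega
    have h7 := fsum_ge (n := n) (f := f) fun i => wt_ge (h2 i) (h5 i)
    have h8 : (n : ℝ) < 8 := by linarith
    have h9 : n < 8 := by exact_mod_cast h8
    obtain rfl | rfl | rfl | rfl : n = 4 ∨ n = 5 ∨ n = 6 ∨ n = 7 := by omega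
    · exact deg_four hM (fun b c hbc => pt hM hbc (gc_of_gs (gs_univ hG hf hbc))) hc hs
    · exact deg_five hM hT hc h5 hs
    · exact deg_six hM hT (hb B M hf) hc h5 hs
    · exact deg_seven hM hT hc h5 hs

end Pool.Agent.H54.BS
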