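import Pool.Agent.H54.BS.Sp
import Pool.Agent.H54.BS.Tre

/-!
# [H54 BS ZIG] Nondegenerate chains and separation

-/

set_option autoImplicit false

namespace Pool.Agent.H54.BS

open Pool.H8.CDW Pool.Agent.H52.PAG Pool.Agent.H75.INF Pool.Agent.H54.TF Pool.Agent.H52.VK Pool.Agent.H34.TG

variable {B : Type} {M : CoxeterMatrix B}

/-- the hypothesis on trees -/
def TreeP (M : CoxeterMatrix B) : Prop := ∀ b c y, 3 ≤ M b c → y ≠ b → y ≠ c → Sep M b c y ∨ Sep M c b y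

theorem sep_false {n : ℕ} {f : ℕ → B × Art M} (hf : Chn M Set.univ n f) (hd : ¬ Deg M Set.univ f) (i : ℕ) :
    ¬ Sep M (f (i + 1)).1 (f i).1 (f (i + 2)).1 := fun h =>
  hd ⟨i, sep_j h rfl rfl rfl (hf.adj i) (hf.adj (i + 1))⟩

theorem zig {n : ℕ} {f : ℕ → B × Art M} (hT : TreeP M) (hf : Chn M Set.univ n f) (hd : ¬ Deg M Set.univ f) {i : ℕ}
    (h1 : 3 ≤ M (f i).1 (f (i + 1)).1) (h2 : 3 ≤ M (f (i + 1)).1 (f (i + 2)).1) : (f (i + 2)).1 = (f i).1 := by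
  by_contra hne
  rcases hT (f i).1 (f (i + 1)).1 (f (i + 2)).1 h1 hne (hf.ne (i + 1)).symm with h | h
  · exact not_sep h2 h
  · exact sep_false hf hd i h

end Pool.Agent.H54.BS
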